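import Pool.Agent.D0H50.HL.Ext

/-!
# Abelian groups with an action of the dilations
-/

set_option autoImplicit false

open Set

namespace Pool.Agent.D0H50.HL

section

variable {A : Type} [AddCommGroup A]

/-- the elements killed by `N` -/
def tor (A : Type) [AddCommGroup A] (N : ℕ) : Set A := {a | N • a = 0}

theorem tor_finite (h : ∀ p : ℕ, p.Prime → (tor A p).Finite) (N : ℕ) (hN : 0 < N) :
    (tor A N).Finite := by
  revert hN
  induction N using induction_on_primes with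
  | zero => intro hN; omega
  | one =>
    intro _
    refine (Set.finite_singleton (0 : A)).subset fun a ha => ?_
    have h1 : (1 : ℕ) • a = 0 := ha
    rw [one_smul] at h1
    exact h1
  | prime_mul p M hp ih =>
    intro hN
    have hM : 0 < M := Nat.pos_of_ne_zero fun h0 => by rw [h0] at hN; omega
    refine ((ih hM).biUnion (t := fun c => {a : A | p • a = c}) fun c _ => ?_).subset fun a ha => ?_
    · by_cases hne : ({a : A | p • a = c}).Nonempty
      · obtain ⟨a₀, ha₀⟩ := hne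
        have ha₀' : p • a₀ = c := ha₀
        refine ((h p hp).image (fun b => b + a₀)).subset fun a ha => ⟨a - a₀, ?_, by simp⟩
        have ha' : p • a = c := ha
        show p • (a - a₀) = 0
        rw [smul_sub, ha', ha₀', sub_self]
      · rw [Set.not_nonempty_iff_eq_empty.1 hne]
        exact Set.finite_empty
    · have h1 : (p * M) • a = 0 := ha
      simp only [Set.mem_iUnion]
      refine ⟨p • a, ?_, rfl⟩
      show M • p • a = 0
      rw [← mul_smul, mul_comm, h1]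

/-- an action of the dilations -/
structure DAct (D : ℝ → A →+ A) : Prop where
  mul : ∀ s ∈ Ioo (0 : ℝ) 1, ∀ r ∈ Ioo (0 : ℝ) 1, ∀ a, D (s * r) a = D s (D r a)
  inj : ∀ s ∈ Ioo (0 : ℝ) 1, Function.Injective (D s)

theorem DAct.pow {D : ℝ → A →+ A} (h : DAct D) {s : ℝ} (hs : s ∈ Ioo (0 : ℝ) 1) (k : ℕ) (a : A) :
    D (s ^ (k + 1)) a = (D s)^[k + 1] a := by
  induction k with
  | zero => simp
  | succ k ih =>
    have h1 : s ^ (k + 1) ∈ Ioo (0 : ℝ) 1 :=
      ⟨pow_pos hs.1 _, pow_lt_one₀ hs.1.le hs.2 (Nat.succ_ne_zero k)⟩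
    rw [pow_succ', h.mul s hs _ h1, ih, ← Function.iterate_succ_apply' (D s)]

/-- the dilations act trivially on finite torsion -/
theorem DAct.fix {D : ℝ → A →+ A} (h : DAct D) {N : ℕ} (hfin : (tor A N).Finite) {q : ℝ}
    (hq : q ∈ Ioo (0 : ℝ) 1) {b : A} (hb : b ∈ tor A N) : D q b = b := by
  haveI : Finite (tor A N) := Set.finite_coe_iff.2 hfin
  have hmem : ∀ (s : ℝ) (x : A), x ∈ tor A N → D s x ∈ tor A N := by
    intro s x hx
    have h1 : N • x = 0 := hx
    show N • D s x = 0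
    rw [← map_nsmul, h1, map_zero]
  set m : ℕ := Nat.card (Equiv.Perm (tor A N)) with hm
  have hm0 : 0 < m := Nat.card_pos
  obtain ⟨k, hk⟩ : ∃ k, m = k + 1 := ⟨m - 1, by omega⟩
  set s : ℝ := q ^ ((1 : ℝ) / m) with hsd
  have hmR : (0 : ℝ) < m := by exact_mod_cast hm0
  have hs : s ∈ Ioo (0 : ℝ) 1 :=
    ⟨Real.rpow_pos_of_pos hq.1 _, Real.rpow_lt_one hq.1.le hq.2 (by positivity)⟩
  have hsm : s ^ m = q := by
    rw [hsd, ← Real.rpow_natCast, ← Real.rpow_mul hq.1.le, one_div, inv_mul_cancel₀ hmR.ne',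
      Real.rpow_one]
  let f : tor A N → tor A N := fun x => ⟨D s x, hmem s x x.2⟩
  have hf : Function.Injective f := fun x y hxy =>
    Subtype.ext (h.inj s hs (congrArg Subtype.val hxy))
  have hfb : Function.Bijective f := hf.bijective_of_finite
  let σ : Equiv.Perm (tor A N) := Equiv.ofBijective f hfb
  have h1 : σ ^ m = 1 := by
    rw [hm]
    exact pow_card_eq_one'
  have h2 : ∀ (j : ℕ) (x : tor A N), (((σ ^ j) x : tor A N) : A) = (D s)^[j] x := by
    intro j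
    induction j with
    | zero => intro x; rfl
    | succ j ih =>
      intro x
      rw [pow_succ', Function.iterate_succ_apply', ← ih x]
      rfl
  have h3 := h2 m ⟨b, hb⟩
  rw [h1] at h3
  have h4 := h.pow hs k b
  rw [← hk, hsm] at h4
  rw [h4, ← h3]
  rfl

/-- finite rank: two dilations agree up to torsion -/
theorem exists_agree (D : ℝ → A →+ A) (hno : ¬ HasChain A) :
    ∃ q₁ ∈ Ioo (0 : ℝ) 1, ∃ q₂ ∈ Ioo (0 : ℝ) 1, q₁ < q₂ ∧
      ∀ a : A, ∃ N : ℤ, N ≠ 0 ∧ N • (D q₁ a - D q₂ a) = 0 := by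
  obtain ⟨S, hS, hmax⟩ := exists_maximal_linearIndepOn ℤ (id : A → A)
  have hfin : S.Finite := by
    by_contra hcon
    have hinf : Infinite S := Set.infinite_coe_iff.2 hcon
    exact hno (chain_of_indep_int hS hinf)
  haveI : Finite S := Set.finite_coe_iff.2 hfin
  have hall : ∀ x : A, ∃ N : ℤ, N ≠ 0 ∧ N • x ∈ Submodule.span ℤ S := by
    intro x
    by_cases hx : x ∈ S
    · exact ⟨1, one_ne_zero, by rw [one_smul]; exact Submodule.subset_span hx⟩
    · obtain ⟨a, ha, h1⟩ := hmax x hx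
      rw [Set.image_id] at h1
      exact ⟨a, ha, h1⟩
  choose N hN0 hN using hall
  haveI : Countable (Submodule.span ℤ S) := by
    have h1 : (Submodule.span ℤ S : Set A) ⊆
        Set.range (Finsupp.linearCombination ℤ (Subtype.val : S → A)) := by
      intro x hx
      have h2 : x ∈ Submodule.span ℤ (Set.range (Subtype.val : S → A)) := by
        rw [Subtype.range_coe]
        exact hx
      rw [← Finsupp.range_linearCombination] at h2
      exact h2
    exact (Set.Countable.mono h1 (Set.countable_range _)).to_subtype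
  let Φ : Ioo (0 : ℝ) 1 → S → ℤ × Submodule.span ℤ S := fun q x =>
    (N (D q x), ⟨N (D q x) • D q x, hN (D q x)⟩)
  have hnot : ¬ Function.Injective Φ := by
    intro hinj
    have h1 : Countable (Ioo (0 : ℝ) 1) := hinj.countable
    exact absurd (Cardinal.Real.Ioo_countable_iff.1 (Set.countable_coe_iff.1 h1)) (by norm_num)
  unfold Function.Injective at hnot
  push Not at hnot
  obtain ⟨q₁, q₂, heq, hne⟩ := hnot
  -- agreement on the generators
  have hgen : ∀ q₁ q₂ : Ioo (0 : ℝ) 1, Φ q₁ = Φ q₂ →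
      ∀ a : A, ∃ M : ℤ, M ≠ 0 ∧ M • (D q₁ a - D q₂ a) = 0 := by
    intro q₁ q₂ heq a
    classical
    have _ := Fintype.ofFinite S
    have h1 : ∀ x : S, N (D q₁ x) • (D q₁ x - D q₂ x) = 0 := by
      intro x
      have h2 := congrFun heq x
      have h3 : N (D q₁ x) = N (D q₂ x) := congrArg Prod.fst h2
      have h4 : N (D q₁ x) • D q₁ x = N (D q₂ x) • D q₂ x :=
        congrArg (fun z : ℤ × Submodule.span ℤ S => (z.2 : A)) h2
      rw [smul_sub, h4, ← h3, sub_self]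
    set M : ℤ := ∏ x : S, N (D q₁ x) with hM
    have hM0 : M ≠ 0 := Finset.prod_ne_zero_iff.2 fun x _ => hN0 _
    have h5 : ∀ x : S, M • (D q₁ x - D q₂ x) = 0 := by
      intro x
      obtain ⟨c, hc⟩ := Finset.dvd_prod_of_mem (fun x : S => N (D q₁ x)) (Finset.mem_univ x)
      rw [hM, hc, mul_comm, mul_smul, h1, smul_zero]
    have h6 : ∀ y ∈ Submodule.span ℤ S, M • (D q₁ y - D q₂ y) = 0 := by
      intro y hy
      induction hy using Submodule.span_induction with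
      | mem x hx => exact h5 ⟨x, hx⟩
      | zero => simp
      | add x y _ _ hx hy =>
        rw [map_add, map_add, add_sub_add_comm, smul_add, hx, hy, add_zero]
      | smul c x _ hx =>
        rw [map_zsmul, map_zsmul, ← smul_sub, smul_comm, hx, smul_zero]
    refine ⟨M * N a, mul_ne_zero hM0 (hN0 a), ?_⟩
    have h7 := h6 _ (hN a)
    rw [map_zsmul, map_zsmul, ← smul_sub] at h7
    rw [mul_smul, h7]
  rcases lt_or_gt_of_ne (fun h => hne (Subtype.ext h) : (q₁ : ℝ) ≠ q₂) with h | h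
  · exact ⟨q₁, q₁.2, q₂, q₂.2, h, hgen q₁ q₂ heq⟩
  · exact ⟨q₂, q₂.2, q₁, q₁.2, h, hgen q₂ q₁ heq.symm⟩

/-- the algebraic theorem on abelian groups -/
theorem trivial_or_chain {D : ℝ → A →+ A} (h : DAct D)
    (hF : ∀ s ∈ Ioo (0 : ℝ) 1, ∀ a, ∃ b, a = D s (D s b) - (D s b + D s b) + b) :
    (∀ a : A, a = 0) ∨ HasChain A := by
  by_cases hno : HasChain A
  · exact Or.inr hno
  left
  have hp : ∀ p : ℕ, p.Prime → (tor A p).Finite := fun p hp => by
    by_contra hcon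
    exact hno (chain_of_tor hp hcon)
  have htor := tor_finite hp
  obtain ⟨q₁, hq₁, q₂, hq₂, hlt, hag⟩ := exists_agree D hno
  have hq : q₁ / q₂ ∈ Ioo (0 : ℝ) 1 := ⟨div_pos hq₁.1 hq₂.1, (div_lt_one hq₂.1).2 hlt⟩
  have hfix : ∀ a, D (q₁ / q₂) (D (q₁ / q₂) a - a) = D (q₁ / q₂) a - a := by
    intro a
    obtain ⟨N, hN0, hN⟩ := hag a
    have h1 : D q₁ a = D q₂ (D (q₁ / q₂) a) := by
      rw [← h.mul q₂ hq₂ _ hq, mul_div_cancel₀ _ hq₂.1.ne']
    rw [h1, ← map_sub, ← map_zsmul] at hN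
    have h2 : N • (D (q₁ / q₂) a - a) = 0 := h.inj q₂ hq₂ (hN.trans (map_zero _).symm)
    have h3 : N.natAbs • (D (q₁ / q₂) a - a) = 0 := by
      rcases Int.natAbs_eq N with h4 | h4
      · rw [h4, natCast_zsmul] at h2
        exact h2
      · rw [h4, neg_smul, natCast_zsmul, neg_eq_zero] at h2
        exact h2
    exact h.fix (htor N.natAbs (Int.natAbs_pos.2 hN0)) hq h3
  intro a
  obtain ⟨b, hb⟩ := hF _ hq a
  have h1 := hfix b
  rw [map_sub] at h1
  rw [hb]
  have h2 : D (q₁ / q₂) (D (q₁ / q₂) b) = D (q₁ / q₂) b - b + D (q₁ / q₂) b := by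
    rw [← h1]
    abel
  rw [h2]
  abel

/-- the algebraic theorem for surjective actions -/
theorem trivial_or_chain' {D : ℝ → A →+ A}
    (hmul : ∀ s ∈ Ioo (0 : ℝ) 1, ∀ r ∈ Ioo (0 : ℝ) 1, ∀ a, D (s * r) a = D s (D r a))
    (hsurj : ∀ s ∈ Ioo (0 : ℝ) 1, Function.Surjective (D s))
    (hone : ∀ s ∈ Ioo (0 : ℝ) 1, ∀ a, ∃ b, a = b - D s b) :
    (∀ a : A, a = 0) ∨ HasChain A := by
  have hIoo : ∀ {s r : ℝ}, s ∈ Ioo (0 : ℝ) 1 → r ∈ Ioo (0 : ℝ) 1 → s * r ∈ Ioo (0 : ℝ) 1 :=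
    fun hs hr => ⟨mul_pos hs.1 hr.1, by nlinarith [hs.1, hs.2, hr.1, hr.2]⟩
  have hcom : ∀ s ∈ Ioo (0 : ℝ) 1, ∀ r ∈ Ioo (0 : ℝ) 1, ∀ a, D s (D r a) = D r (D s a) := by
    intro s hs r hr a
    rw [← hmul s hs r hr, mul_comm, hmul r hr s hs]
  have hmono : ∀ s ∈ Ioo (0 : ℝ) 1, ∀ r ∈ Ioo (0 : ℝ) 1, s ≤ r → ∀ a, D r a = 0 → D s a = 0 := by
    intro s hs r hr hsr a ha
    rcases eq_or_lt_of_le hsr with h | h
    · rw [h, ha]
    · have hx : s / r ∈ Ioo (0 : ℝ) 1 := ⟨div_pos hs.1 hr.1, (div_lt_one hr.1).2 h⟩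
      have h1 := hmul _ hx r hr a
      rw [div_mul_cancel₀ _ hr.1.ne', ha, map_zero] at h1
      exact h1
  let K : AddSubgroup A :=
    { carrier := {a | ∃ s ∈ Ioo (0 : ℝ) 1, D s a = 0}
      add_mem' := by
        rintro a b ⟨s, hs, ha⟩ ⟨r, hr, hb⟩
        refine ⟨s * r, hIoo hs hr, ?_⟩
        rw [map_add, hmul s hs r hr, hmul s hs r hr, hb, map_zero, hcom s hs r hr, ha, map_zero,
          add_zero]
      zero_mem' := ⟨1 / 2, by norm_num, map_zero _⟩
      neg_mem' := by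
        rintro a ⟨s, hs, ha⟩
        exact ⟨s, hs, by rw [map_neg, ha, neg_zero]⟩ }
  have hK : ∀ s ∈ Ioo (0 : ℝ) 1, K ≤ K.comap (D s) := by
    rintro s hs a ⟨r, hr, ha⟩
    exact ⟨r, hr, by rw [hcom r hr s hs, ha, map_zero]⟩
  classical
  let D' : ℝ → (A ⧸ K) →+ (A ⧸ K) := fun s =>
    if hs : s ∈ Ioo (0 : ℝ) 1 then QuotientAddGroup.map K K (D s) (hK s hs) else 0
  have hD' : ∀ s ∈ Ioo (0 : ℝ) 1, ∀ a : A, D' s (a : A ⧸ K) = ((D s a : A) : A ⧸ K) := by
    intro s hs a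
    simp only [D', dif_pos hs]
    rfl
  have hact : DAct D' := by
    refine ⟨fun s hs r hr a => ?_, fun s hs => ?_⟩
    · obtain ⟨a, rfl⟩ := QuotientAddGroup.mk_surjective a
      rw [hD' _ (hIoo hs hr), hD' r hr, hD' s hs, hmul s hs r hr]
    · rw [injective_iff_map_eq_zero]
      intro a ha
      obtain ⟨a, rfl⟩ := QuotientAddGroup.mk_surjective a
      rw [hD' s hs, QuotientAddGroup.eq_zero_iff] at ha
      obtain ⟨r, hr, h1⟩ := ha
      rw [QuotientAddGroup.eq_zero_iff]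
      exact ⟨r * s, hIoo hr hs, by rw [hmul r hr s hs, h1]⟩
  have hone' : ∀ s ∈ Ioo (0 : ℝ) 1, ∀ a : A ⧸ K, ∃ b, a = b - D' s b := by
    intro s hs a
    obtain ⟨a, rfl⟩ := QuotientAddGroup.mk_surjective a
    obtain ⟨b, hb⟩ := hone s hs a
    refine ⟨(b : A ⧸ K), ?_⟩
    rw [hD' s hs, ← QuotientAddGroup.mk_sub, ← hb]
  rcases trivial_or_chain hact (fun s hs a => by
    obtain ⟨b, hb⟩ := hone' s hs a
    obtain ⟨d, hd⟩ := hone' s hs b
    refine ⟨d, ?_⟩
    rw [hb]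
    nth_rewrite 1 [hd]
    rw [hd, map_sub]
    abel) with h3 | ⟨f, hf, hfu⟩
  · by_cases hA : ∀ a : A, a = 0
    · exact Or.inl hA
    right
    have hall : ∀ a : A, ∃ s ∈ Ioo (0 : ℝ) 1, D s a = 0 := by
      intro a
      have h1 := h3 (a : A ⧸ K)
      rw [QuotientAddGroup.eq_zero_iff] at h1
      exact h1
    let g : ℝ → (AddSubgroup A)ᵒᵈ := fun s => OrderDual.toDual (D s).ker
    have hg : MonotoneOn g (Ioo 0 1) := by
      intro s hs r hr hsr
      show (D r).ker ≤ (D s).ker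
      intro a ha
      exact hmono s hs r hr hsr a ha
    have hs' : ∀ s r x : ℝ, 0 < s → s < r → r < 1 → g s = g r → 0 < x → x < 1 →
        g (x * s) = g (x * r) := by
      intro s r x hs0 hsr hr1 heq hx0 hx1
      have hs : s ∈ Ioo (0 : ℝ) 1 := ⟨hs0, hsr.trans hr1⟩
      have hr : r ∈ Ioo (0 : ℝ) 1 := ⟨hs0.trans hsr, hr1⟩
      have hx : x ∈ Ioo (0 : ℝ) 1 := ⟨hx0, hx1⟩
      have heq' : (D s).ker = (D r).ker := heq
      show (D (x * s)).ker = (D (x * r)).ker
      ext a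
      rw [AddMonoidHom.mem_ker, AddMonoidHom.mem_ker, mul_comm x s, mul_comm x r,
        hmul s hs x hx, hmul r hr x hx, ← AddMonoidHom.mem_ker, heq', AddMonoidHom.mem_ker]
    have hstrict : ∀ s ∈ Ioo (0 : ℝ) 1, ∀ r ∈ Ioo (0 : ℝ) 1, s < r → (D r).ker < (D s).ker := by
      intro s hs r hr hsr
      refine lt_of_le_of_ne (hg hs hr hsr.le) fun heq => hA fun a => ?_
      obtain ⟨b, rfl⟩ := hsurj r hr a
      obtain ⟨s', hs', hb⟩ := hall b
      have h4 : g s = g r := heq.symm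
      rcases le_or_gt r s' with h5 | h5
      · exact hmono r hr s' hs' h5 b hb
      · have h6 : g s' = g r := const_below hg ‹_› hs.1 hsr hr.2 h4 hs'.1 h5 le_rfl
        have h7 : (D s').ker = (D r).ker := h6
        have h8 : b ∈ (D s').ker := hb
        rw [h7] at h8
        exact h8
    obtain ⟨e, he, hm, -, hco⟩ := exists_emb' zero_lt_one
    refine ⟨fun t => (D (e (-t))).ker, fun s t hst =>
      hstrict _ (hm _) _ (hm _) (he (neg_lt_neg hst)), fun a => ?_⟩
    obtain ⟨s, hs, ha⟩ := hall a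
    obtain ⟨t, ht⟩ := hco s hs.1
    refine ⟨-t, ?_⟩
    show D (e (- -t)) a = 0
    rw [neg_neg]
    exact hmono _ (hm t) s hs ht.le a ha
  · right
    refine ⟨fun t => (f t).comap (QuotientAddGroup.mk' K), fun s t hst => ?_, fun a => ?_⟩
    · exact (AddSubgroup.comap_lt_comap_of_surjective (QuotientAddGroup.mk'_surjective K)).2
        (hf hst)
    · exact hfu (a : A ⧸ K)

end

end Pool.Agent.D0H50.HL
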