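import Pool.Agent.D0H50.HL.Var
import Pool.Agent.R773.HN.Fin3

/-!
# The action function of a Hamiltonian diffeomorphism
-/

set_option autoImplicit false

open Set Filter Topology Function
open Pool.Agent.Y453.HB
open Pool.Agent.R773.HN (Bd.G Bd.fderiv_slice)

namespace Pool.Agent.D0H50.HL

variable {n : ℕ}

theorem Nice.uniq {H : ℝ → E n → ℝ} {K : Set (ℝ × E n)} (h : Nice H K) {γ γ' : ℝ → E n} {t₁ : ℝ}
    (h1 : γ t₁ = γ' t₁) (hγ : ∀ t, HasDerivAt γ (Bd.G H (t, γ t)) t)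
    (hγ' : ∀ t, HasDerivAt γ' (Bd.G H (t, γ' t)) t) (t : ℝ) : γ t = γ' t := by
  have hsupp : HasCompactSupport (Bd.G H) := HasCompactSupport.intro h.cpt fun p hp => h.G_zero hp
  obtain ⟨C, hC⟩ := ContDiff.lipschitzWith_of_hasCompactSupport hsupp
    (contDiff_infty.mp h.G_contDiff 1) one_ne_zero
  have hL : ∀ t, LipschitzWith C (fun y => Bd.G H (t, y)) := by
    intro t
    refine LipschitzWith.of_dist_le_mul fun x y => ?_
    refine (hC.dist_le_mul (t, x) (t, y)).trans ?_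
    rw [Prod.dist_eq]
    simp only [dist_self]
    rw [max_eq_right dist_nonneg]
  exact congrFun (ODE_solution_unique_univ (v := fun t y => Bd.G H (t, y)) (s := fun _ => univ)
    (K := C) (t₀ := t₁) (fun t => (hL t).lipschitzOnWith) (fun t => ⟨hγ t, trivial⟩)
    (fun t => ⟨hγ' t, trivial⟩) h1) t

theorem exists_fam {H : ℝ → E n → ℝ} {K : Set (ℝ × E n)} (h : Nice H K) (t₀ : ℝ) :
    ∃ (P : ℝ × E n → E n) (A : ℝ × E n → ℝ), Fam H t₀ P A ∧
      ∀ z, (∀ t, (t, z) ∉ K) → ∀ t, A (t, z) = 0 := by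
  obtain ⟨g, C, -, g0, gd, -, gs, g1⟩ := exists_ext h
  have hin : ContDiff ℝ ((⊤ : ℕ∞) : WithTop ℕ∞)
      (fun p : ℝ × E n => ((p.1 - t₀, (t₀, (p.2, (0 : ℝ)))) : ℝ × (ℝ × (E n × ℝ)))) :=
    (contDiff_fst.sub contDiff_const).prodMk
      (contDiff_const.prodMk (contDiff_snd.prodMk contDiff_const))
  have hS : ContDiff ℝ ((⊤ : ℕ∞) : WithTop ℕ∞)
      (fun p : ℝ × E n => g (p.1 - t₀) (t₀, (p.2, (0 : ℝ)))) := gs.comp hin
  have hdw : ∀ (z : E n) (t : ℝ), HasDerivAt (fun t => g (t - t₀) (t₀, (z, (0 : ℝ))))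
      (V H (g (t - t₀) (t₀, (z, (0 : ℝ))))) t := fun z t =>
    HasDerivAt.comp_sub_const t t₀ (gd (t₀, (z, (0 : ℝ))) (t - t₀))
  have h1 : ∀ (z : E n) (t : ℝ), (g (t - t₀) (t₀, (z, (0 : ℝ)))).1 = t := fun z t => by
    rw [g1]
    ring
  have hP : ∀ p : ℝ × E n, HasDerivAt (fun t => (g (t - t₀) (t₀, (p.2, (0 : ℝ)))).2.1)
      (Bd.G H (p.1, (g (p.1 - t₀) (t₀, (p.2, (0 : ℝ)))).2.1)) p.1 := by
    intro p
    have h2a : HasDerivAt (fun t => (g (t - t₀) (t₀, (p.2, (0 : ℝ)))).2)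
        (V H (g (p.1 - t₀) (t₀, (p.2, (0 : ℝ))))).2 p.1 := (hdw p.2 p.1).snd
    have h2 : HasDerivAt (fun t => (g (t - t₀) (t₀, (p.2, (0 : ℝ)))).2.1)
        (V H (g (p.1 - t₀) (t₀, (p.2, (0 : ℝ))))).2.1 p.1 := h2a.fst
    have h3 : (V H (g (p.1 - t₀) (t₀, (p.2, (0 : ℝ))))).2.1 =
        Bd.G H ((g (p.1 - t₀) (t₀, (p.2, (0 : ℝ)))).1,
          (g (p.1 - t₀) (t₀, (p.2, (0 : ℝ)))).2.1) := rfl
    rw [h3, h1] at h2
    exact h2
  have hA : ∀ p : ℝ × E n, HasDerivAt (fun t => (g (t - t₀) (t₀, (p.2, (0 : ℝ)))).2.2)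
      (Lg H (p.1, (g (p.1 - t₀) (t₀, (p.2, (0 : ℝ)))).2.1)) p.1 := by
    intro p
    have h2a : HasDerivAt (fun t => (g (t - t₀) (t₀, (p.2, (0 : ℝ)))).2)
        (V H (g (p.1 - t₀) (t₀, (p.2, (0 : ℝ))))).2 p.1 := (hdw p.2 p.1).snd
    have h2 : HasDerivAt (fun t => (g (t - t₀) (t₀, (p.2, (0 : ℝ)))).2.2)
        (V H (g (p.1 - t₀) (t₀, (p.2, (0 : ℝ))))).2.2 p.1 := h2a.snd
    have h3 : (V H (g (p.1 - t₀) (t₀, (p.2, (0 : ℝ))))).2.2 =
        Lg H ((g (p.1 - t₀) (t₀, (p.2, (0 : ℝ)))).1,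
          (g (p.1 - t₀) (t₀, (p.2, (0 : ℝ)))).2.1) := rfl
    rw [h3, h1] at h2
    exact h2
  refine ⟨fun p => (g (p.1 - t₀) (t₀, (p.2, (0 : ℝ)))).2.1,
    fun p => (g (p.1 - t₀) (t₀, (p.2, (0 : ℝ)))).2.2,
    ⟨(contDiff_fst.comp contDiff_snd).comp hS, (contDiff_snd.comp contDiff_snd).comp hS,
      fun z => ?_, fun z => ?_, hP, hA⟩, fun z hz t => ?_⟩
  · simp only [sub_self, g0]
  · simp only [sub_self, g0]
  · have hPz : ∀ t, (g (t - t₀) (t₀, (z, (0 : ℝ)))).2.1 = z := by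
      intro t
      refine h.uniq (γ := fun t => (g (t - t₀) (t₀, (z, (0 : ℝ)))).2.1) (γ' := fun _ => z)
        (t₁ := t₀) ?_ (fun t => hP (t, z)) (fun t => ?_) t
      · simp only [sub_self, g0]
      · rw [h.G_zero (hz t)]
        exact hasDerivAt_const t z
    have hd : ∀ t, HasDerivAt (fun t => (g (t - t₀) (t₀, (z, (0 : ℝ)))).2.2) 0 t := by
      intro t
      have h2 := hA (t, z)
      simp only at h2
      rw [hPz, h.L_zero (hz t)] at h2
      exact h2
    have h4 := is_const_of_deriv_eq_zero (fun t => (hd t).differentiableAt)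
      (fun t => (hd t).deriv) t t₀
    simp only [sub_self, g0] at h4
    exact h4

open Pool.Agent.R773.HN in
/-- the time cut off Hamiltonian -/
theorem exists_nice {H : ℝ → E n → ℝ}
    (hH : ContDiff ℝ ((⊤ : ℕ∞) : WithTop ℕ∞) (Function.uncurry H)) {K : Set (E n)}
    (hK : IsCompact K) (h0 : ∀ t x, x ∉ K → H t x = 0) :
    Nice (fun t x => TflowAux.cut t * H t x) (Icc (-1 : ℝ) 2 ×ˢ K) := by
  refine ⟨?_, isCompact_Icc.prod hK, fun t x hx => ?_⟩
  · have h1 : ContDiff ℝ ((⊤ : ℕ∞) : WithTop ℕ∞) TflowAux.cut := by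
      unfold TflowAux.cut
      exact (Real.smoothTransition.contDiff.comp (contDiff_id.add contDiff_const)).mul
        (Real.smoothTransition.contDiff.comp (contDiff_const.sub contDiff_id))
    exact (h1.comp contDiff_fst).mul hH
  · by_cases h : t ∈ Icc (-1 : ℝ) 2
    · rw [h0 t x fun h2 => hx ⟨h, h2⟩, mul_zero]
    · rw [TflowAux.cut_zero h, zero_mul]

open Pool.Agent.R773.HN in
/-- the action function of a Hamiltonian diffeomorphism `u` -/
theorem exists_action {u : E n ≃ₜ E n} (hu : IsHam u) :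
    ∃ F : E n → ℝ, ContDiff ℝ ((⊤ : ℕ∞) : WithTop ℕ∞) F ∧
      ContDiff ℝ ((⊤ : ℕ∞) : WithTop ℕ∞) u ∧
      (∀ z, XH F z = z - fderiv ℝ u (u.symm z) (u.symm z)) ∧ ∀ z, 1 ≤ Q z → F z = 0 := by
  obtain ⟨H, hH, ⟨K, hK, hKQ, h0⟩, ψ, ψ0, ψd, hψ⟩ := hu
  have hN := exists_nice hH hK h0
  obtain ⟨P₀, A₀, hF₀, -⟩ := exists_fam hN 0
  obtain ⟨P, A, hF, hoff⟩ := exists_fam hN 1
  -- `u` is the time one map
  have hu1 : ∀ x, u x = P₀ (1, x) := by
    intro x
    have huni := (uni2 bd : S_UNI) n H K ⟨hH, hK, hKQ, h0⟩ 0 1 le_rfl zero_le_one le_rfl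
      (fun t => ψ t x) (fun t => P₀ (t, x)) (by rw [ψ0, hF₀.P_zero]) (fun τ _ => ψd τ x)
      (fun τ hτ => by
        have h2 := hF₀.P_deriv (τ, x)
        have h3 : (fun y : E n => TflowAux.cut τ * H τ y) = H τ := by
          funext y
          rw [TflowAux.cut_one hτ, one_mul]
        have h4 : Bd.G (fun t x => TflowAux.cut t * H t x) (τ, P₀ (τ, x)) =
            XH (H τ) (P₀ (τ, x)) := by
          unfold Bd.G
          simp only
          rw [h3]
        rw [h4] at h2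
        exact h2) 1 ⟨zero_le_one, le_rfl⟩
    rw [hψ]
    exact huni
  have hus : ContDiff ℝ ((⊤ : ℕ∞) : WithTop ℕ∞) u := by
    have h1 : (u : E n → E n) = fun x => P₀ (1, x) := funext hu1
    rw [h1]
    exact hF₀.P_smooth.comp (contDiff_const.prodMk contDiff_id)
  -- the inverse
  have hq : ∀ z, P (0, z) = u.symm z := by
    intro z
    have h1 := hN.uniq (γ := fun t => P (t, z)) (γ' := fun t => P₀ (t, u.symm z)) (t₁ := 1)
      (by rw [hF.P_zero, ← hu1, u.apply_symm_apply]) (fun t => hF.P_deriv (t, z))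
      (fun t => hF₀.P_deriv (t, u.symm z)) 0
    rw [h1, hF₀.P_zero]
  have hin : ∀ z, HasFDerivAt (fun y : E n => ((0 : ℝ), y)) (ContinuousLinearMap.inr ℝ ℝ (E n)) z :=
    fun z => hasFDerivAt_prodMk_right 0 z
  have hdq : ∀ z, HasFDerivAt (fun y : E n => u.symm y)
      ((fderiv ℝ P (0, z)).comp (ContinuousLinearMap.inr ℝ ℝ (E n))) z := by
    intro z
    have h1 : HasFDerivAt (fun y : E n => P (0, y))
        ((fderiv ℝ P (0, z)).comp (ContinuousLinearMap.inr ℝ ℝ (E n))) z :=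
      HasFDerivAt.comp z (f := fun y : E n => ((0 : ℝ), y))
        (hF.P_smooth.differentiable (by simp) (0, z)).hasFDerivAt (hin z)
    have h2 : (fun y : E n => P (0, y)) = fun y => u.symm y := funext hq
    rw [h2] at h1
    exact h1
  have hdA : ∀ z, HasFDerivAt (fun y : E n => - A (0, y))
      (-((fderiv ℝ A (0, z)).comp (ContinuousLinearMap.inr ℝ ℝ (E n)))) z := by
    intro z
    have h1 : HasFDerivAt (fun y : E n => A (0, y))
        ((fderiv ℝ A (0, z)).comp (ContinuousLinearMap.inr ℝ ℝ (E n))) z :=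
      HasFDerivAt.comp z (f := fun y : E n => ((0 : ℝ), y))
        (hF.A_smooth.differentiable (by simp) (0, z)).hasFDerivAt (hin z)
    exact h1.neg
  refine ⟨fun y => - A (0, y), (hF.A_smooth.comp (contDiff_const.prodMk contDiff_id)).neg, hus,
    fun z => ?_, fun z hz => ?_⟩
  · refine XH_eq fun w => ?_
    rw [(hdA z).fderiv]
    have h1 : (-((fderiv ℝ A (0, z)).comp (ContinuousLinearMap.inr ℝ ℝ (E n)))) w =
        - fderiv ℝ A (0, z) ((0 : ℝ), w) := rfl
    rw [h1, hF.action hN z w 0, hq]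
    -- `D q (D u (q z) v) = v`
    have hdu : HasFDerivAt (fun y : E n => u y) (fderiv ℝ u (u.symm z)) (u.symm z) :=
      (hus.differentiable (by simp) _).hasFDerivAt
    have h2 : fderiv ℝ P (0, z) ((0 : ℝ), fderiv ℝ u (u.symm z) (u.symm z)) = u.symm z := by
      have h3 := hdq z
      have h4 : HasFDerivAt (fun y : E n => u.symm (u y))
          (((fderiv ℝ P (0, z)).comp (ContinuousLinearMap.inr ℝ ℝ (E n))).comp
            (fderiv ℝ u (u.symm z))) (u.symm z) :=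
        HasFDerivAt.comp (u.symm z) (f := fun y : E n => u y) (g := fun y : E n => u.symm y)
          (by
            simp only [Homeomorph.apply_symm_apply]
            exact h3) hdu
      have h5 : (fun y : E n => u.symm (u y)) = id := funext fun y => u.symm_apply_apply y
      rw [h5] at h4
      exact congrArg (fun T => T (u.symm z)) (h4.unique (hasFDerivAt_id _))
    have h6 := hF.sympl hN z (fderiv ℝ u (u.symm z) (u.symm z)) w 0
    rw [h2] at h6
    rw [h6, map_sub, _root_.sub_apply]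
    ring
  · have h1 := hoff z (fun t h2 => by
      have := hKQ h2.2
      have h3 : Q z < 1 := this
      linarith) 0
    show - A (0, z) = 0
    rw [h1, neg_zero]

end Pool.Agent.D0H50.HL
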