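import Pool.Agent.D0H50.HL.Act

/-!
# Expansion of Hamiltonian diffeomorphisms supported in smaller balls
-/

set_option autoImplicit false

open Set Filter Topology Function
open Pool.Agent.Y453.HB

namespace Pool.Agent.D0H50.HL

variable {n : ℕ}

/-- the Hamiltonian field of a dilated function -/
theorem XH_dil {F : E n → ℝ} (hF : Differentiable ℝ F) (c r : ℝ) (y : E n) :
    XH (fun y => c * F (r • y)) y = (c * r) • XH F (r • y) := by
  refine XH_eq fun w => ?_
  have h1 : HasFDerivAt (fun y : E n => r • y) (r • ContinuousLinearMap.id ℝ (E n)) y :=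
    (hasFDerivAt_id y).const_smul r
  have h2 : HasFDerivAt (fun y : E n => F (r • y))
      ((fderiv ℝ F (r • y)).comp (r • ContinuousLinearMap.id ℝ (E n))) y :=
    HasFDerivAt.comp y (f := fun y : E n => r • y) (hF _).hasFDerivAt h1
  rw [(h2.const_mul c).fderiv]
  rw [map_smul, _root_.smul_apply, om_XH]
  simp only [_root_.smul_apply, ContinuousLinearMap.comp_apply, smul_eq_mul,
    ContinuousLinearMap.id_apply, map_smul]
  ring

/-- the action vanishes off the support -/
theorem action_zero {u : E n ≃ₜ E n} {F : E n → ℝ}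
    (hF : ContDiff ℝ ((⊤ : ℕ∞) : WithTop ℕ∞) F)
    (hX : ∀ z, XH F z = z - fderiv ℝ u (u.symm z) (u.symm z)) (h1 : ∀ z, 1 ≤ Q z → F z = 0)
    {ρ : ℝ} (hu : ∀ x, ρ ^ 2 < Q x → u x = x) {z : E n} (hz : ρ ^ 2 < Q z) : F z = 0 := by
  -- the field vanishes
  have hX0 : ∀ y, ρ ^ 2 < Q y → XH F y = 0 := by
    intro y hy
    have h2 : u.symm y = y := by
      rw [Homeomorph.symm_apply_eq]
      exact (hu y hy).symm
    have h3 : (u : E n → E n) =ᶠ[𝓝 y] id := by
      filter_upwards [(isOpen_lt continuous_const Q_cont).mem_nhds hy] with x hx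
      exact hu x hx
    rw [hX, h2, h3.fderiv_eq, fderiv_id]
    simp
  have hd : ∀ σ : ℝ, HasDerivAt (fun σ : ℝ => F ((1 + σ ^ 2) • z)) 0 σ := by
    intro σ
    have h2 : HasDerivAt (fun σ : ℝ => (1 + σ ^ 2) • z) ((2 * σ) • z) σ := by
      have h3 : HasDerivAt (fun σ : ℝ => 1 + σ ^ 2) (2 * σ) σ := by
        have h4 := (hasDerivAt_pow 2 σ).const_add 1
        simpa using h4
      exact h3.smul_const z
    have h5 : HasFDerivAt F (fderiv ℝ F ((1 + σ ^ 2) • z)) ((1 + σ ^ 2) • z) :=
      (hF.differentiable (by simp) _).hasFDerivAt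
    refine (h5.comp_hasDerivAt σ h2).congr_deriv ?_
    rw [← om_XH, hX0, map_zero]
    · rfl
    · rw [Q_smul]
      have h6 : 0 ≤ Q z := Q_nonneg z
      nlinarith [sq_nonneg σ, sq_nonneg (σ ^ 2)]
  have hc := fun σ : ℝ => is_const_of_deriv_eq_zero (fun t => (hd t).differentiableAt)
    (fun t => (hd t).deriv) 0 σ
  have hQ : 0 < Q z := lt_of_le_of_lt (sq_nonneg ρ) hz
  have h7 := hc (√(1 / Q z))
  simp only [ne_eq, OfNat.ofNat_ne_zero, not_false_eq_true, zero_pow, add_zero, one_smul] at h7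
  rw [h7]
  apply h1
  rw [Q_smul, Real.sq_sqrt (by positivity)]
  have h8 : 1 / Q z * Q z = 1 := by field_simp
  have h9 : 0 < 1 / Q z := by positivity
  nlinarith

/-- the radius -/
noncomputable def rad (s τ : ℝ) : ℝ := 1 - (1 - s) * Real.smoothTransition τ

theorem rad_smooth (s : ℝ) : ContDiff ℝ ((⊤ : ℕ∞) : WithTop ℕ∞) (rad s) := by
  unfold rad
  exact contDiff_const.sub (contDiff_const.mul Real.smoothTransition.contDiff)

theorem rad_ge {s : ℝ} (hs1 : s ≤ 1) (τ : ℝ) : s ≤ rad s τ := by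
  unfold rad
  nlinarith [Real.smoothTransition.le_one τ, Real.smoothTransition.nonneg τ]

theorem expand {u : E n ≃ₜ E n} (hu : IsHam u) {ρ s : ℝ} (hρ : 0 ≤ ρ) (hs : ρ < s) (hs1 : s < 1)
    (hs0 : 0 < s) (hK : ∀ x, ρ ^ 2 < Q x → u x = x) : IsHam ((dil s hs0)⁻¹ * u * dil s hs0) := by
  obtain ⟨F, hF, hus, hX, hF1⟩ := exists_action hu
  have hF0 : ∀ z, ρ ^ 2 < Q z → F z = 0 := fun z hz => action_zero hF hX hF1 hK hz
  have hr : ∀ τ, 0 < rad s τ := fun τ => lt_of_lt_of_le hs0 (rad_ge hs1.le τ)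
  have hrs := rad_smooth s
  have hrd : ContDiff ℝ ((⊤ : ℕ∞) : WithTop ℕ∞) (deriv (rad s)) :=
    (contDiff_infty_iff_deriv.1 hrs).2
  have hFd : Differentiable ℝ F := hF.differentiable (by simp)
  have hud : Differentiable ℝ u := hus.differentiable (by simp)
  have key : IsHam ((dil s hs0)⁻¹ * u * dil s hs0 * u⁻¹) := by
    refine ⟨fun τ y => -(deriv (rad s) τ / rad s τ ^ 3) * F (rad s τ • y), ?_,
      ⟨{y | Q y ≤ (ρ / s) ^ 2}, (tri n).2.2.2.2.1 _, ?_, ?_⟩,
      fun τ x => (rad s τ)⁻¹ • u (rad s τ • u.symm x), ?_, ?_, ?_⟩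
    · have h1 : ContDiff ℝ ((⊤ : ℕ∞) : WithTop ℕ∞) (fun p : ℝ × E n => rad s p.1) :=
        hrs.comp contDiff_fst
      have h2 : ContDiff ℝ ((⊤ : ℕ∞) : WithTop ℕ∞) (fun p : ℝ × E n => deriv (rad s) p.1) :=
        hrd.comp contDiff_fst
      exact ((h2.div (h1.pow 3) fun p => pow_ne_zero 3 (hr p.1).ne').neg).mul
        (hF.comp (h1.smul contDiff_snd))
    · intro y hy
      have h1 : Q y ≤ (ρ / s) ^ 2 := hy
      have h2 : ρ / s < 1 := (div_lt_one hs0).2 hs
      have h3 : 0 ≤ ρ / s := div_nonneg hρ hs0.le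
      show Q y < 1
      nlinarith
    · intro τ y hy
      have h1 : (ρ / s) ^ 2 < Q y := not_le.1 hy
      have h2 : ρ ^ 2 < Q (rad s τ • y) := by
        rw [Q_smul]
        have h3 : s ^ 2 ≤ rad s τ ^ 2 := pow_le_pow_left₀ hs0.le (rad_ge hs1.le τ) 2
        have h4 : ρ ^ 2 = s ^ 2 * (ρ / s) ^ 2 := by
          rw [div_pow]
          field_simp
        have h5 : 0 ≤ Q y := Q_nonneg y
        have h6 : 0 < s ^ 2 := by positivity
        nlinarith
      simp only
      rw [hF0 _ h2, mul_zero]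
    · intro x
      have h1 : rad s 0 = 1 := by
        unfold rad
        rw [Real.smoothTransition.zero]
        ring
      simp only
      rw [h1]
      simp
    · intro τ x
      simp only
      rw [XH_dil hFd]
      have h1 : rad s τ • (rad s τ)⁻¹ • u (rad s τ • u.symm x) = u (rad s τ • u.symm x) := by
        rw [smul_smul, mul_inv_cancel₀ (hr τ).ne', one_smul]
      rw [h1, hX, u.symm_apply_apply]
      have hrd1 : HasDerivAt (rad s) (deriv (rad s) τ) τ :=
        (hrs.differentiable (by simp) τ).hasDerivAt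
      have h2 : HasDerivAt (fun τ => rad s τ • u.symm x) (deriv (rad s) τ • u.symm x) τ :=
        hrd1.smul_const _
      have h3 : HasDerivAt (fun τ => u (rad s τ • u.symm x))
          (fderiv ℝ u (rad s τ • u.symm x) (deriv (rad s) τ • u.symm x)) τ :=
        (hud _).hasFDerivAt.comp_hasDerivAt τ h2
      have h4 := (hrd1.fun_inv (hr τ).ne').fun_smul h3
      refine h4.congr_deriv ?_
      have e1 : fderiv ℝ u (rad s τ • u.symm x) (deriv (rad s) τ • u.symm x) =
          (deriv (rad s) τ / rad s τ) •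
            fderiv ℝ u (rad s τ • u.symm x) (rad s τ • u.symm x) := by
        have e2 : deriv (rad s) τ • u.symm x =
            (deriv (rad s) τ / rad s τ) • (rad s τ • u.symm x) := by
          rw [smul_smul, div_mul_cancel₀ _ (hr τ).ne']
        rw [e2]
        exact ContinuousLinearMap.map_smul _ _ _
      have hne := (hr τ).ne'
      have c1 : (rad s τ)⁻¹ * (deriv (rad s) τ / rad s τ) =
          deriv (rad s) τ / rad s τ ^ 3 * rad s τ := by
        field_simp
      have c2 : -deriv (rad s) τ / rad s τ ^ 2 =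
          -(deriv (rad s) τ / rad s τ ^ 3 * rad s τ) := by
        field_simp
      rw [e1, smul_sub, smul_smul, c1, c2]
      module
    · intro x
      have h1 : rad s 1 = s := by
        unfold rad
        rw [Real.smoothTransition.one]
        ring
      simp only
      rw [h1]
      rfl
  have h2 := Pool.Agent.Y907.HB.mul n _ _ key hu
  have h3 : (dil s hs0)⁻¹ * u * dil s hs0 * u⁻¹ * u = (dil s hs0)⁻¹ * u * dil s hs0 := by
    group
  rwa [h3] at h2

end Pool.Agent.D0H50.HL
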