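import Pool.Agent.D0H50.HL.Ord

/-!
# Exhausting chains of subgroups of type `ℝ` in abelian groups of infinite rank
-/

set_option autoImplicit false

open Set

namespace Pool.Agent.D0H50.HL

/-- finitely supported functions `ℚ → ℚ / ℤ` -/
abbrev M : Type := ℚ →₀ AddCircle (1 : ℚ)

theorem M_surj (n : ℤ) (hn : n ≠ 0) : Function.Surjective (fun x : M => n • x) := by
  intro x
  refine ⟨x.sum fun q a => Finsupp.single q (DivisibleBy.div a n), ?_⟩
  simp only
  rw [Finsupp.smul_sum]
  conv_rhs => rw [← Finsupp.sum_single x]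
  refine Finsupp.sum_congr fun q _ => ?_
  rw [Finsupp.smul_single, DivisibleBy.div_cancel _ hn]

noncomputable instance : DivisibleBy M ℤ :=
  divisibleByOfSMulRightSurj M ℤ fun {n} hn => M_surj n hn

/-- the elements of `M` supported in `q < t` -/
def Mt (t : ℝ) : AddSubgroup M where
  carrier := {f | ∀ q : ℚ, f q ≠ 0 → (q : ℝ) < t}
  add_mem' := by
    intro f g hf hg q hq
    by_contra hcon
    have h1 : f q = 0 := by
      by_contra h
      exact hcon (hf q h)
    have h2 : g q = 0 := by
      by_contra h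
      exact hcon (hg q h)
    exact hq (by rw [Finsupp.add_apply, h1, h2, add_zero])
  zero_mem' := by
    intro q hq
    exact absurd rfl hq
  neg_mem' := by
    intro f hf q hq
    refine hf q fun h => hq ?_
    rw [Finsupp.neg_apply, h, neg_zero]

variable {A : Type} [AddCommGroup A]

/-- an exhausting chain -/
def HasChain (A : Type) [AddCommGroup A] : Prop :=
  ∃ f : ℝ → AddSubgroup A, StrictMono f ∧ ∀ a, ∃ t, a ∈ f t

theorem chain_of_hom (h : A →+ M) (c : AddCircle (1 : ℚ)) (hc : c ≠ 0)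
    (hx : ∀ q : ℚ, ∃ x : A, h x = Finsupp.single q c) : HasChain A := by
  refine ⟨fun t => (Mt t).comap h, fun s t hst => ?_, fun a => ?_⟩
  · refine lt_of_le_of_ne (fun a ha q hq => (ha q hq).trans hst) fun heq => ?_
    obtain ⟨q, hq1, hq2⟩ := exists_rat_btwn hst
    obtain ⟨x, hx⟩ := hx q
    have h1 : x ∈ (Mt t).comap h := by
      intro q' hq'
      rw [hx, Finsupp.single_apply] at hq'
      split_ifs at hq' with h2
      · rw [← h2]
        exact hq2
      · exact absurd rfl hq'
    simp only at heq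
    rw [← heq] at h1
    have h2 := h1 q (by rw [hx, Finsupp.single_eq_same]; exact hc)
    linarith
  · obtain ⟨b, hb⟩ := ((h a).support.image fun q : ℚ => (q : ℝ)).bddAbove
    refine ⟨b + 1, fun q hq => ?_⟩
    have h1 : (q : ℝ) ≤ b := hb (by
      simp only [Finset.coe_image, Set.mem_image]
      exact ⟨q, Finsupp.mem_support_iff.2 hq, rfl⟩)
    linarith

theorem chain_of_ext (X : AddSubgroup A) (h0 : X →+ M) (c : AddCircle (1 : ℚ)) (hc : c ≠ 0)
    (hx : ∀ q : ℚ, ∃ x : X, h0 x = Finsupp.single q c) : HasChain A := by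
  obtain ⟨h, hh⟩ := Module.Baer.extension_property_addMonoidHom (Module.Baer.of_divisible M)
    X.subtype X.subtype_injective h0
  refine chain_of_hom h c hc fun q => ?_
  obtain ⟨x, hx⟩ := hx q
  exact ⟨x, by rw [← hx, ← hh]; rfl⟩

/-- elements of order dividing `m` in `ℚ / ℤ` -/
theorem exists_torsion {m : ℕ} (hm : 1 < m) : ∃ c : AddCircle (1 : ℚ), c ≠ 0 ∧ m • c = 0 := by
  have hm0 : 0 < m := by omega
  refine ⟨((1 / m : ℚ) : AddCircle (1 : ℚ)), ?_, ?_⟩
  · intro h
    have h1 := AddCircle.addOrderOf_period_div (p := (1 : ℚ)) (n := m) hm0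
    rw [h, addOrderOf_zero] at h1
    omega
  · have h1 := addOrderOf_nsmul_eq_zero ((1 / m : ℚ) : AddCircle (1 : ℚ))
    rwa [AddCircle.addOrderOf_period_div (p := (1 : ℚ)) (n := m) hm0] at h1

/-- infinitely many independent elements -/
theorem chain_of_indep_int {S : Set A} (hS : LinearIndepOn ℤ (id : A → A) S) (hinf : Infinite S) :
    HasChain A := by
  obtain ⟨e, he⟩ : ∃ e : ℚ → S, Function.Injective e :=
    ⟨_, ((Encodable.encode' ℚ).trans (Infinite.natEmbedding S)).injective⟩
  obtain ⟨c, hc, -⟩ := exists_torsion (m := 2) (by norm_num)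
  have hli : LinearIndependent ℤ (Subtype.val : S → A) := hS
  let X : Submodule ℤ A := Submodule.span ℤ (Set.range (Subtype.val : S → A))
  let r : X →+ (S →₀ ℤ) := hli.repr.toAddMonoidHom
  let m1 : (S →₀ ℤ) →+ (S →₀ AddCircle (1 : ℚ)) :=
    Finsupp.mapRange.addMonoidHom (zmultiplesHom (AddCircle (1 : ℚ)) c)
  let m2 : (S →₀ AddCircle (1 : ℚ)) →+ M := Finsupp.comapDomain.addMonoidHom he
  refine chain_of_ext X.toAddSubgroup ((m2.comp m1).comp r) c hc fun q => ?_
  refine ⟨⟨(e q : A), Submodule.subset_span ⟨e q, rfl⟩⟩, ?_⟩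
  have h1 : hli.repr ⟨(e q : A), Submodule.subset_span ⟨e q, rfl⟩⟩ = Finsupp.single (e q) 1 :=
    hli.repr_eq_single (e q) _ rfl
  show m2 (m1 (hli.repr ⟨(e q : A), Submodule.subset_span ⟨e q, rfl⟩⟩)) = _
  rw [h1]
  have h2 : m1 (Finsupp.single (e q) 1) = Finsupp.single (e q) c := by
    show Finsupp.mapRange (zmultiplesHom (AddCircle (1 : ℚ)) c)
      (map_zero (zmultiplesHom (AddCircle (1 : ℚ)) c)) (Finsupp.single (e q) 1) = _
    rw [Finsupp.mapRange_single]
    simp
  rw [h2]
  show Finsupp.comapDomain e (Finsupp.single (e q) c) _ = _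
  rw [Finsupp.comapDomain_single]

/-- infinitely many elements of order `p` -/
theorem chain_of_tor {p : ℕ} (hp : p.Prime) (h : {a : A | p • a = 0}.Infinite) : HasChain A := by
  haveI : Fact p.Prime := ⟨hp⟩
  let B : AddSubgroup A :=
    { carrier := {a : A | p • a = 0}
      add_mem' := fun {a b} ha hb => by
        have h1 : p • a = 0 := ha
        have h2 : p • b = 0 := hb
        show p • (a + b) = 0
        rw [nsmul_add, h1, h2, add_zero]
      zero_mem' := nsmul_zero p
      neg_mem' := fun {a} ha => by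
        have h1 : p • a = 0 := ha
        show p • (-a) = 0
        rw [smul_neg, h1, neg_zero] }
  letI : Module (ZMod p) B := AddCommGroup.zmodModule (n := p) fun x => Subtype.ext x.2
  let b := Module.Basis.ofVectorSpace (ZMod p) B
  have hinf : Infinite (Module.Basis.ofVectorSpaceIndex (ZMod p) B) := by
    by_contra hcon
    rw [not_infinite_iff_finite] at hcon
    have hf : Module.Finite (ZMod p) B := Module.Finite.of_basis b
    have h1 : Finite B := Module.finite_of_finite (ZMod p)
    exact h (Set.finite_coe_iff.1 h1)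
  obtain ⟨e, he⟩ : ∃ e : ℚ → Module.Basis.ofVectorSpaceIndex (ZMod p) B, Function.Injective e :=
    ⟨_, ((Encodable.encode' ℚ).trans (Infinite.natEmbedding _)).injective⟩
  obtain ⟨c, hc, hpc⟩ := exists_torsion (m := p) hp.one_lt
  let z : ZMod p →+ AddCircle (1 : ℚ) := ZMod.lift p ⟨zmultiplesHom (AddCircle (1 : ℚ)) c, by
    show (p : ℤ) • c = 0
    rw [natCast_zsmul, hpc]⟩
  have hz : z 1 = c := by
    have h1 : z ((1 : ℤ) : ZMod p) = zmultiplesHom (AddCircle (1 : ℚ)) c 1 := ZMod.lift_coe p _ 1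
    rw [Int.cast_one] at h1
    rw [h1]
    simp
  let m1 : (Module.Basis.ofVectorSpaceIndex (ZMod p) B →₀ ZMod p) →+
      (Module.Basis.ofVectorSpaceIndex (ZMod p) B →₀ AddCircle (1 : ℚ)) :=
    Finsupp.mapRange.addMonoidHom z
  let m2 : (Module.Basis.ofVectorSpaceIndex (ZMod p) B →₀ AddCircle (1 : ℚ)) →+ M :=
    Finsupp.comapDomain.addMonoidHom he
  refine chain_of_ext B ((m2.comp m1).comp b.repr.toLinearMap.toAddMonoidHom) c hc fun q => ?_
  refine ⟨b (e q), ?_⟩
  show m2 (m1 (b.repr (b (e q)))) = _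
  rw [b.repr_self]
  have h2 : m1 (Finsupp.single (e q) 1) = Finsupp.single (e q) c := by
    show Finsupp.mapRange z (map_zero z) (Finsupp.single (e q) 1) = _
    rw [Finsupp.mapRange_single, hz]
  rw [h2]
  show Finsupp.comapDomain e (Finsupp.single (e q) c) _ = _
  rw [Finsupp.comapDomain_single]

end Pool.Agent.D0H50.HL
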