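import Pool.Agent.D0H50.HL.Grp

/-!
# The dichotomy for the group of Hamiltonian homeomorphisms of the ball
-/

set_option autoImplicit false

open Set
open Pool.Agent.Y453.HB
open Pool.Agent.R773.HN (hSm hCo main_of')

namespace Pool.Agent.D0H50.HL

variable {n : ℕ}

theorem dichotomy (hn : 0 < n) : IsSimpleGroup (HamBar n) ∨ HasNormalChain (HamBar n) := by
  obtain ⟨S, h1, h2, h3, -, -, -, h4, h5⟩ := main_of' hSm hCo hn (HamBar n)
    (fun u hu => memBar.2 (ham_mem hu)) le_rfl
  have h6 := h5 (1 / 100) (by norm_num) le_rfl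
  have hd : Dils (HamBar n) (dilHom n) S := by
    refine dilsBar hn h1 h2 h3 h4 fun htop f g => ?_
    rw [h6.1, htop]
    exact Subgroup.commutator_mem_commutator (Subgroup.mem_top f) (Subgroup.mem_top g)
  rcases hd.main with h7 | h7
  · left
    have hne : S ≠ ⊥ := by
      rintro rfl
      have := h2.toNontrivial
      exact not_subsingleton _ (inferInstance : Subsingleton (⊥ : Subgroup (HamBar n)))
    have hnt : Nontrivial (HamBar n) := by
      obtain ⟨⟨m, hm⟩, hm'⟩ := (Subgroup.ne_bot_iff_exists_ne_one).1 hne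
      exact ⟨m, 1, fun h => hm' (Subtype.ext h)⟩
    refine { hnt with eq_bot_or_eq_top_of_normal := fun N hN => ?_ }
    by_cases hb : N = ⊥
    · exact Or.inl hb
    · right
      rw [eq_top_iff, ← h7]
      exact h3 N hN hb
  · exact Or.inr h7

theorem dense (hn : 0 < n) {N : Subgroup (HamBar n)} (hN : N.Normal) (hb : N ≠ ⊥) :
    ∀ φ ∈ HamBar n, ∀ ε : ℝ, 0 < ε → ∃ s ∈ N, ∀ x, dist ((s : E n ≃ₜ E n) x) (φ x) < ε := by
  obtain ⟨S, h1, h2, h3, h4, -⟩ := main_of' hSm hCo hn (HamBar n)
    (fun u hu => memBar.2 (ham_mem hu)) le_rfl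
  intro φ hφ ε hε
  obtain ⟨s, hs, h5⟩ := h4 φ hφ ε hε
  exact ⟨s, h3 N hN hb hs, h5⟩

/-- general consequences of the dichotomy -/
theorem simple_iff_nat {G : Type} [Group G] (h : IsSimpleGroup G ∨ HasNormalChain G) :
    IsSimpleGroup G ↔ ¬ ∃ N : ℕ → Subgroup G, StrictMono N ∧ (∀ k, (N k).Normal) ∧
      ∀ φ, ∃ k, φ ∈ N k := by
  constructor
  · rintro hs ⟨N, hN, hn, -⟩
    have h1 : N 0 < N 1 := hN zero_lt_one
    have h2 : N 1 < N 2 := hN one_lt_two
    rcases hs.eq_bot_or_eq_top_of_normal (N 1) (hn 1) with h3 | h3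
    · rw [h3] at h1
      exact not_lt_bot h1
    · rw [h3] at h2
      exact not_top_lt h2
  · intro hno
    rcases h with h | ⟨N, hN, hn, hu⟩
    · exact h
    · exfalso
      refine hno ⟨fun k => N (k : ℝ), fun a b hab => hN (by exact_mod_cast hab),
        fun k => hn _, fun φ => ?_⟩
      obtain ⟨t, ht⟩ := hu φ
      obtain ⟨k, hk⟩ := exists_nat_ge t
      exact ⟨k, hN.monotone hk ht⟩

theorem simple_iff_card {G : Type} [Group G] (h : IsSimpleGroup G ∨ HasNormalChain G) :
    IsSimpleGroup G ↔ Cardinal.mk {N : Subgroup G // N.Normal} < Cardinal.continuum := by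
  constructor
  · intro hs
    have h1 : Finite {N : Subgroup G // N.Normal} := by
      have h2 : ({N : Subgroup G | N.Normal}).Finite := by
        refine (Set.toFinite {(⊥ : Subgroup G), ⊤}).subset fun N hN => ?_
        rcases hs.eq_bot_or_eq_top_of_normal N hN with h3 | h3
        · exact Or.inl h3
        · exact Or.inr h3
      exact h2.to_subtype
    exact (Cardinal.lt_aleph0_of_finite _).trans Cardinal.aleph0_lt_continuum
  · intro hc
    rcases h with h | ⟨N, hN, hn, -⟩
    · exact h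
    · exfalso
      refine absurd hc (not_lt.2 ?_)
      rw [← Cardinal.mk_real]
      exact Cardinal.mk_le_of_injective (f := fun t : ℝ => (⟨N t, hn t⟩ :
        {N : Subgroup G // N.Normal})) fun s t hst => hN.injective (congrArg Subtype.val hst)

end Pool.Agent.D0H50.HL
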