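import Pool.Agent.D0H50.HL.Om
import Pool.Agent.GR.Flow

/-!
# The extended flow of a time dependent Hamiltonian with compact support, with the action
-/

set_option autoImplicit false

open Set Filter Topology Function
open Pool.Agent.Y453.HB
open Pool.Agent.R773.HN (Bd.G Bd.fderiv_slice)

namespace Pool.Agent.D0H50.HL

variable {n : ℕ}

/-- smooth with compact support in `ℝ × ℝ^{2n}` -/
structure Nice (H : ℝ → E n → ℝ) (K : Set (ℝ × E n)) : Prop where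
  smooth : ContDiff ℝ ((⊤ : ℕ∞) : WithTop ℕ∞) (Function.uncurry H)
  cpt : IsCompact K
  off : ∀ t x, (t, x) ∉ K → H t x = 0

/-- the Lagrangian -/
noncomputable def Lg (H : ℝ → E n → ℝ) (p : ℝ × E n) : ℝ :=
  2 * H p.1 p.2 - fderiv ℝ (H p.1) p.2 p.2

theorem Nice.G_contDiff {H : ℝ → E n → ℝ} {K : Set (ℝ × E n)} (h : Nice H K) :
    ContDiff ℝ ((⊤ : ℕ∞) : WithTop ℕ∞) (Bd.G H) := by
  have h1 : ContDiff ℝ ((⊤ : ℕ∞) : WithTop ℕ∞)
      (fun p : ℝ × E n => fderiv ℝ (Function.uncurry H) p) :=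
    h.smooth.fderiv_right (m := ((⊤ : ℕ∞) : WithTop ℕ∞)) (by simp)
  have h2 : ∀ v : E n, ContDiff ℝ ((⊤ : ℕ∞) : WithTop ℕ∞)
      (fun p : ℝ × E n => fderiv ℝ (H p.1) p.2 v) := by
    intro v
    have h3 : (fun p : ℝ × E n => fderiv ℝ (H p.1) p.2 v)
        = fun p : ℝ × E n => fderiv ℝ (Function.uncurry H) p ((0 : ℝ), v) := by
      funext p
      exact Bd.fderiv_slice h.smooth p.1 p.2 v
    rw [h3]
    exact h1.clm_apply contDiff_const
  unfold Bd.G XH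
  refine ContDiff.prodMk ?_ ?_
  · exact contDiff_pi.mpr fun i => h2 _
  · exact contDiff_pi.mpr fun i => (h2 _).neg

theorem Nice.L_contDiff {H : ℝ → E n → ℝ} {K : Set (ℝ × E n)} (h : Nice H K) :
    ContDiff ℝ ((⊤ : ℕ∞) : WithTop ℕ∞) (Lg H) := by
  have h1 : ContDiff ℝ ((⊤ : ℕ∞) : WithTop ℕ∞)
      (fun p : ℝ × E n => fderiv ℝ (Function.uncurry H) p) :=
    h.smooth.fderiv_right (m := ((⊤ : ℕ∞) : WithTop ℕ∞)) (by simp)
  have h3 : Lg H = fun p : ℝ × E n => 2 * (Function.uncurry H) p -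
      fderiv ℝ (Function.uncurry H) p ((0 : ℝ), p.2) := by
    funext p
    unfold Lg
    rw [Bd.fderiv_slice h.smooth p.1 p.2 p.2]
    rfl
  rw [h3]
  exact (contDiff_const.mul h.smooth).sub (h1.clm_apply (contDiff_const.prodMk contDiff_snd))

theorem Nice.near {H : ℝ → E n → ℝ} {K : Set (ℝ × E n)} (h : Nice H K) {p : ℝ × E n}
    (hp : p ∉ K) : H p.1 =ᶠ[𝓝 p.2] fun _ => (0 : ℝ) := by
  have h2 : Kᶜ ∈ 𝓝 p := h.cpt.isClosed.isOpen_compl.mem_nhds hp
  have h3 : Tendsto (fun y : E n => (p.1, y)) (𝓝 p.2) (𝓝 p) :=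
    (Continuous.prodMk continuous_const continuous_id).tendsto p.2
  filter_upwards [h3 h2] with y hy
  exact h.off _ _ hy

theorem Nice.G_zero {H : ℝ → E n → ℝ} {K : Set (ℝ × E n)} (h : Nice H K) {p : ℝ × E n}
    (hp : p ∉ K) : Bd.G H p = 0 := by
  have h3 : fderiv ℝ (H p.1) p.2 = 0 := by
    rw [(h.near hp).fderiv_eq]
    simp
  unfold Bd.G XH
  rw [h3]
  ext i <;> simp

theorem Nice.L_zero {H : ℝ → E n → ℝ} {K : Set (ℝ × E n)} (h : Nice H K) {p : ℝ × E n}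
    (hp : p ∉ K) : Lg H p = 0 := by
  have h3 : fderiv ℝ (H p.1) p.2 = 0 := by
    rw [(h.near hp).fderiv_eq]
    simp
  unfold Lg
  rw [h3, h.off _ _ hp]
  simp

/-- the autonomous extended field -/
noncomputable def V (H : ℝ → E n → ℝ) (w : ℝ × (E n × ℝ)) : ℝ × (E n × ℝ) :=
  (1, (Bd.G H (w.1, w.2.1), Lg H (w.1, w.2.1)))

open Pool.Agent.GR.Flow in
theorem exists_ext {H : ℝ → E n → ℝ} {K : Set (ℝ × E n)} (h : Nice H K) :
    ∃ (g : ℝ → ℝ × (E n × ℝ) → ℝ × (E n × ℝ)) (C : NNReal), LipschitzWith C (V H) ∧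
      (∀ w, g 0 w = w) ∧
      (∀ w t, HasDerivAt (fun t => g t w) (V H (g t w)) t) ∧
      (∀ t s w, g (t + s) w = g t (g s w)) ∧
      ContDiff ℝ ((⊤ : ℕ∞) : WithTop ℕ∞) (fun q : ℝ × (ℝ × (E n × ℝ)) => g q.1 q.2) ∧
      ∀ t w, (g t w).1 = w.1 + t := by
  have hGL : ContDiff ℝ ((⊤ : ℕ∞) : WithTop ℕ∞) (fun p : ℝ × E n => (Bd.G H p, Lg H p)) :=
    h.G_contDiff.prodMk h.L_contDiff
  have hsupp : HasCompactSupport (fun p : ℝ × E n => (Bd.G H p, Lg H p)) :=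
    HasCompactSupport.intro h.cpt fun p hp => by
      rw [h.G_zero hp, h.L_zero hp]
      rfl
  obtain ⟨C, hC⟩ := ContDiff.lipschitzWith_of_hasCompactSupport hsupp
    (contDiff_infty.mp hGL 1) one_ne_zero
  obtain ⟨M, hM⟩ := hGL.continuous.bounded_above_of_compact_support hsupp
  have hV : V H = fun w : ℝ × (E n × ℝ) => ((1 : ℝ), (fun p : ℝ × E n => (Bd.G H p, Lg H p))
      (w.1, w.2.1)) := rfl
  have hVs : ContDiff ℝ ((⊤ : ℕ∞) : WithTop ℕ∞) (V H) := by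
    rw [hV]
    exact contDiff_const.prodMk (hGL.comp (contDiff_fst.prodMk (contDiff_fst.comp contDiff_snd)))
  have hpr : LipschitzWith 1 (fun w : ℝ × (E n × ℝ) => ((w.1, w.2.1) : ℝ × E n)) := by
    have h1 := (LipschitzWith.prod_fst (α := ℝ) (β := E n × ℝ)).prodMk
      ((LipschitzWith.prod_fst (α := E n) (β := ℝ)).comp
        (LipschitzWith.prod_snd (α := ℝ) (β := E n × ℝ)))
    simpa using h1
  have hZC : LipschitzWith (max 0 (C * 1)) (V H) :=
    (LipschitzWith.const (1 : ℝ)).prodMk (hC.comp hpr)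
  have hZM : ∀ w, ‖V H w‖ ≤ ((max 1 (Real.toNNReal M) : NNReal) : ℝ) := by
    intro w
    have h1 : ‖V H w‖ = max ‖(1 : ℝ)‖
      ‖(fun p : ℝ × E n => (Bd.G H p, Lg H p)) (w.1, w.2.1)‖ := rfl
    rw [h1, NNReal.coe_max]
    refine max_le_max ?_ ((hM _).trans (Real.le_coe_toNNReal M))
    simp
  choose γ hγ0 hγ using fun w => exists_solution hZC hZM w
  have hfl : IsFlowOf (V H) (fun t w => γ w t) := ⟨hγ0, fun w t => hγ w t⟩
  refine ⟨fun t w => γ w t, _, hZC, hγ0, fun w t => hγ w t, fun t s w => hfl.add hZC t s w,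
    ?_, fun t w => ?_⟩
  · rw [contDiff_infty]
    intro m
    have h5 : ContDiff ℝ ((m + 1 : ℕ) : WithTop ℕ∞)
        (fun q : ℝ × (ℝ × (E n × ℝ)) => γ q.2 q.1) :=
      contDiff_flow (X := (⟨V H, hVs.continuous⟩ : C(ℝ × (E n × ℝ), ℝ × (E n × ℝ))))
        (Nat.succ_ne_zero m) (contDiff_infty.mp hVs (m + 1)) hZC hfl
    exact h5.of_le (by exact_mod_cast Nat.le_succ m)
  · have hd : ∀ t, HasDerivAt (fun t => (γ w t).1 - t) 0 t := by
      intro t
      have h1 : HasDerivAt (fun t => (γ w t).1) (V H (γ w t)).1 t := (hγ w t).fst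
      have h2 := h1.sub (hasDerivAt_id t)
      have h3 : (V H (γ w t)).1 - 1 = 0 := sub_self (1 : ℝ)
      rw [h3] at h2
      exact h2
    have h4 := is_const_of_deriv_eq_zero (fun t => (hd t).differentiableAt)
      (fun t => (hd t).deriv) t 0
    rw [hγ0] at h4
    linarith

end Pool.Agent.D0H50.HL
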