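import Pool.Agent.D0H50.HL.Abl

/-!
# Groups with a semigroup of dilations: exhausting chains of normal subgroups
-/

set_option autoImplicit false

open Set
open scoped commutatorElement

namespace Pool.Agent.D0H50.HL

/-- the setting -/
structure Dils (G : Type) [Group G] (i : ℝ → G →* G) (S : Subgroup G) : Prop where
  normal : S.Normal
  mul : ∀ s ∈ Ioo (0 : ℝ) 1, ∀ r ∈ Ioo (0 : ℝ) 1, ∀ φ, i (s * r) φ = i s (i r φ)
  exh : ∀ φ, ∃ s ∈ Ioo (0 : ℝ) 1, ∃ ψ, i s ψ = φ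
  min : ∀ N : Subgroup G, N.Normal → N ≠ ⊥ → S ≤ N
  ne : ∀ s ∈ Ioo (0 : ℝ) 1, ∃ φ, φ ≠ 1 ∧ i s φ ∈ S
  frag : (∀ s ∈ Ioo (0 : ℝ) 1, Subgroup.normalClosure (Set.range (i s)) = ⊤) →
    ∀ f g : G, ⁅f, g⁆ ∈ S
  trick : ∀ (A : Type) [AddCommGroup A] (D : A →+ A) (c : G →* Multiplicative A), ∀ s ∈ Ioo (0 : ℝ) 1,
    (∀ φ, (c (i s φ)).toAdd = D (c φ).toAdd) →
    ∃ r ∈ Ioo (0 : ℝ) 1, ∀ φ, ∃ Φ, (c (i r φ)).toAdd = (c Φ).toAdd - D (c Φ).toAdd

variable {G : Type} [Group G] {i : ℝ → G →* G} {S : Subgroup G}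

/-- exhausting chains of normal subgroups -/
def HasNormalChain (G : Type) [Group G] : Prop :=
  ∃ N : ℝ → Subgroup G, StrictMono N ∧ (∀ t, (N t).Normal) ∧ ∀ φ, ∃ t, φ ∈ N t

theorem mem_Ioo_mul {s r : ℝ} (hs : s ∈ Ioo (0 : ℝ) 1) (hr : r ∈ Ioo (0 : ℝ) 1) :
    s * r ∈ Ioo (0 : ℝ) 1 :=
  ⟨mul_pos hs.1 hr.1, by nlinarith [hs.1, hs.2, hr.1, hr.2]⟩

/-- dilations preserve `S` -/
theorem Dils.le_comap (h : Dils G i S) {s : ℝ} (hs : s ∈ Ioo (0 : ℝ) 1) : S ≤ S.comap (i s) := by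
  haveI := h.normal
  refine h.min _ inferInstance ?_
  obtain ⟨φ, hφ, hm⟩ := h.ne s hs
  intro hb
  have h1 : φ ∈ S.comap (i s) := hm
  rw [hb, Subgroup.mem_bot] at h1
  exact hφ h1

/-- first step: the normal closures of the dilates -/
theorem Dils.step1 (h : Dils G i S) :
    HasNormalChain G ∨
      ∀ s ∈ Ioo (0 : ℝ) 1, Subgroup.normalClosure (Set.range (i s)) = ⊤ := by
  let g : ℝ → Subgroup G := fun s => Subgroup.normalClosure (Set.range (i s))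
  have hg : MonotoneOn g (Ioo 0 1) := by
    intro s hs r hr hsr
    refine Subgroup.normalClosure_mono ?_
    rcases eq_or_lt_of_le hsr with h1 | h1
    · rw [h1]
    · rintro _ ⟨φ, rfl⟩
      have hx : s / r ∈ Ioo (0 : ℝ) 1 := ⟨div_pos hs.1 hr.1, (div_lt_one hr.1).2 h1⟩
      refine ⟨i (s / r) φ, ?_⟩
      rw [← h.mul r hr _ hx, mul_div_cancel₀ _ hr.1.ne']
  have hs' : ∀ s r x : ℝ, 0 < s → s < r → r < 1 → g s = g r → 0 < x → x < 1 →
      g (x * s) = g (x * r) := by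
    intro s r x hs0 hsr hr1 heq hx0 hx1
    have hs : s ∈ Ioo (0 : ℝ) 1 := ⟨hs0, hsr.trans hr1⟩
    have hr : r ∈ Ioo (0 : ℝ) 1 := ⟨hs0.trans hsr, hr1⟩
    have hx : x ∈ Ioo (0 : ℝ) 1 := ⟨hx0, hx1⟩
    refine le_antisymm (hg (mem_Ioo_mul hx hs) (mem_Ioo_mul hx hr)
      (mul_le_mul_of_nonneg_left hsr.le hx0.le)) (Subgroup.normalClosure_le_normal ?_)
    rintro _ ⟨φ, rfl⟩
    have h1 : g s ≤ (g (x * s)).comap (i x) := by
      refine Subgroup.normalClosure_le_normal ?_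
      rintro _ ⟨ψ, rfl⟩
      show i x (i s ψ) ∈ g (x * s)
      rw [← h.mul x hx s hs]
      exact Subgroup.subset_normalClosure ⟨ψ, rfl⟩
    have h2 : i r φ ∈ g s := by
      rw [heq]
      exact Subgroup.subset_normalClosure ⟨φ, rfl⟩
    show i (x * r) φ ∈ g (x * s)
    rw [h.mul x hx r hr]
    exact h1 h2
  rcases chain_or_const g hg hs' with ⟨e, he, hm, hc⟩ | hc
  · left
    refine ⟨fun t => g (e t), he, fun t => Subgroup.normalClosure_normal, fun φ => ?_⟩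
    obtain ⟨s, hs, ψ, rfl⟩ := h.exh φ
    obtain ⟨t, ht⟩ := hc s hs.2
    exact ⟨t, hg hs (hm t) ht.le (Subgroup.subset_normalClosure ⟨ψ, rfl⟩)⟩
  · right
    intro s hs
    rw [eq_top_iff]
    intro φ _
    obtain ⟨r, hr, ψ, rfl⟩ := h.exh φ
    have h1 : g s = g r := hc s hs r hr
    show i r ψ ∈ g s
    rw [h1]
    exact Subgroup.subset_normalClosure ⟨ψ, rfl⟩

/-- **The dichotomy.** -/
theorem Dils.main (h : Dils G i S) : S = ⊤ ∨ HasNormalChain G := by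
  haveI := h.normal
  rcases h.step1 with h1 | htop
  · exact Or.inr h1
  have hcomm := h.frag htop
  have hnorm : ∀ N : Subgroup G, S ≤ N → N.Normal := by
    intro N hN
    refine ⟨fun x hx g => ?_⟩
    have h1 : g * x * g⁻¹ = ⁅g, x⁆ * x := by
      rw [commutatorElement_def]
      group
    rw [h1]
    exact N.mul_mem (hN (hcomm g x)) hx
  have hsurj : ∀ s ∈ Ioo (0 : ℝ) 1, ∀ φ : G, ∃ ψ : G, ∃ σ ∈ S, φ = i s ψ * σ := by
    intro s hs φ
    have h1 : ((i s).range ⊔ S).Normal := hnorm _ le_sup_right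
    have h2 : Subgroup.normalClosure (Set.range (i s)) ≤ (i s).range ⊔ S :=
      Subgroup.normalClosure_le_normal fun x hx => le_sup_left (a := (i s).range) hx
    rw [htop s hs] at h2
    have h3 : φ ∈ (i s).range ⊔ S := h2 (Subgroup.mem_top φ)
    rw [← SetLike.mem_coe, Subgroup.mul_normal, Set.mem_mul] at h3
    obtain ⟨_, ⟨ψ, rfl⟩, σ, hσ, rfl⟩ := h3
    exact ⟨ψ, σ, hσ, rfl⟩
  letI : CommGroup (G ⧸ S) :=
    { QuotientGroup.Quotient.group S with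
      mul_comm := by
        intro a b
        obtain ⟨a, rfl⟩ := QuotientGroup.mk_surjective a
        obtain ⟨b, rfl⟩ := QuotientGroup.mk_surjective b
        refine QuotientGroup.eq.2 ?_
        have h3 : (a * b)⁻¹ * (b * a) = ⁅b⁻¹, a⁻¹⁆ := by
          rw [commutatorElement_def]
          group
        rw [h3]
        exact hcomm _ _ }
  let c : G →* Multiplicative (Additive (G ⧸ S)) :=
    { toFun := fun φ => Multiplicative.ofAdd (Additive.ofMul (φ : G ⧸ S))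
      map_one' := rfl
      map_mul' := fun _ _ => rfl }
  classical
  let D : ℝ → Additive (G ⧸ S) →+ Additive (G ⧸ S) := fun s =>
    if hs : s ∈ Ioo (0 : ℝ) 1 then
      MonoidHom.toAdditive (QuotientGroup.map S S (i s) (h.le_comap hs)) else 0
  have hD : ∀ s ∈ Ioo (0 : ℝ) 1, ∀ φ : G, D s (c φ).toAdd = (c (i s φ)).toAdd := by
    intro s hs φ
    simp only [D, dif_pos hs]
    rfl
  have hcs : ∀ a : Additive (G ⧸ S), ∃ φ : G, a = (c φ).toAdd := by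
    intro a
    obtain ⟨φ, hφ⟩ := QuotientGroup.mk_surjective a.toMul
    exact ⟨φ, by
      show a = Additive.ofMul (φ : G ⧸ S)
      rw [hφ]
      rfl⟩
  have hc0 : ∀ φ ψ : G, (c φ).toAdd = (c ψ).toAdd ↔ φ⁻¹ * ψ ∈ S := by
    intro φ ψ
    exact QuotientGroup.eq
  have hmul : ∀ s ∈ Ioo (0 : ℝ) 1, ∀ r ∈ Ioo (0 : ℝ) 1, ∀ a, D (s * r) a = D s (D r a) := by
    intro s hs r hr a
    obtain ⟨φ, rfl⟩ := hcs a
    rw [hD _ (mem_Ioo_mul hs hr), hD r hr, hD s hs, h.mul s hs r hr]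
  have hDs : ∀ s ∈ Ioo (0 : ℝ) 1, Function.Surjective (D s) := by
    intro s hs a
    obtain ⟨φ, rfl⟩ := hcs a
    obtain ⟨ψ, σ, hσ, hφ⟩ := hsurj s hs φ
    refine ⟨(c ψ).toAdd, ?_⟩
    rw [hD s hs, hc0, hφ]
    have h3 : (i s ψ)⁻¹ * (i s ψ * σ) = σ := by group
    rw [h3]
    exact hσ
  have hone : ∀ s ∈ Ioo (0 : ℝ) 1, ∀ a, ∃ b, a = b - D s b := by
    intro s hs a
    obtain ⟨r, hr, ht⟩ := h.trick (Additive (G ⧸ S)) (D s) c s hs fun φ => (hD s hs φ).symm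
    obtain ⟨φ, rfl⟩ := hcs a
    obtain ⟨ψ, σ, hσ, hφ⟩ := hsurj r hr φ
    obtain ⟨Φ, hΦ⟩ := ht ψ
    refine ⟨(c Φ).toAdd, ?_⟩
    rw [← hΦ, hc0, hφ]
    have h3 : (i r ψ * σ)⁻¹ * i r ψ = σ⁻¹ := by group
    rw [h3]
    exact S.inv_mem hσ
  rcases trivial_or_chain' hmul hDs hone with h3 | ⟨f, hf, hfu⟩
  · left
    rw [eq_top_iff]
    intro φ _
    have h4 : (c 1).toAdd = (c φ).toAdd := by rw [h3 (c φ).toAdd, h3 (c 1).toAdd]
    rw [hc0, inv_one, one_mul] at h4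
    exact h4
  · right
    let π : G →* G ⧸ S := QuotientGroup.mk' S
    refine ⟨fun t => (AddSubgroup.toSubgroup' (f t)).comap π, fun s t hst => ?_, fun t => ?_,
      fun φ => ?_⟩
    · rw [Subgroup.comap_lt_comap_of_surjective (QuotientGroup.mk'_surjective S)]
      exact (AddSubgroup.toSubgroup').strictMono (hf hst)
    · infer_instance
    · obtain ⟨t, ht⟩ := hfu (c φ).toAdd
      exact ⟨t, ht⟩

end Pool.Agent.D0H50.HL
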