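import Pool.Agent.D0H50.HL.Exp
import Pool.Agent.D0H50.HL.Lat
import Pool.Agent.Y453.HB.Fin
import Pool.Agent.R773.HN.Defs3

/-!
# Dilations of the group of Hamiltonian homeomorphisms of the ball
-/

set_option autoImplicit false

open Set Filter Topology Function
open Pool.Agent.Y453.HB
open scoped commutatorElement

namespace Pool.Agent.D0H50.HL

variable {n : ℕ}

theorem memBar {φ : E n ≃ₜ E n} : φ ∈ HamBar n ↔ φ ∈ hamBar n :=
  mem_iff Pool.Agent.Y907.HB.mul Pool.Agent.Y510.HB.inv Pool.Agent.Y309.HB.uc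

/-- a compact subset of the open ball is contained in a smaller ball -/
theorem exists_rho {K : Set (E n)} (hK : IsCompact K) (hKQ : K ⊆ {p : E n | Q p < 1}) :
    ∃ ρ : ℝ, 0 ≤ ρ ∧ ρ < 1 ∧ ∀ x ∈ K, Q x ≤ ρ ^ 2 := by
  rcases K.eq_empty_or_nonempty with h | h
  · exact ⟨0, le_rfl, zero_lt_one, fun x hx => by rw [h] at hx; exact absurd hx (notMem_empty x)⟩
  · obtain ⟨y, hy, hmax⟩ := hK.exists_isMaxOn h (Q_cont (n := n)).continuousOn
    refine ⟨√(Q y), Real.sqrt_nonneg _, ?_, fun x hx => ?_⟩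
    · rw [Real.sqrt_lt' zero_lt_one]
      have := hKQ hy
      simpa using this
    · rw [Real.sq_sqrt (Q_nonneg y)]
      exact hmax hx

/-- expansion of Hamiltonian homeomorphisms -/
theorem expandBar {φ : E n ≃ₜ E n} (hφ : φ ∈ hamBar n) :
    ∃ ρ : ℝ, 0 ≤ ρ ∧ ρ < 1 ∧ ∀ (s : ℝ) (hs : 0 < s), ρ < s → s < 1 →
      (dil s hs)⁻¹ * φ * dil s hs ∈ hamBar n := by
  obtain ⟨K, hK, hK1, hK2, u, hu1, hu2, hu3⟩ := hφ
  obtain ⟨ρ, hρ0, hρ1, hρ⟩ := exists_rho hK hK1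
  refine ⟨ρ, hρ0, hρ1, fun s hs hρs hs1 => ?_⟩
  have hfix : ∀ w : E n ≃ₜ E n, (∀ x, x ∉ K → w x = x) →
      ∀ x, x ∉ (fun x : E n => s⁻¹ • x) '' K →
      ((dil s hs)⁻¹ * w * dil s hs : E n ≃ₜ E n) x = x := by
    intro w hw x hx
    rw [mul_apply, mul_apply, dil_inv_apply, dil_apply, hw, smul_smul, inv_mul_cancel₀ hs.ne',
      one_smul]
    intro hc
    refine hx ⟨s • x, hc, ?_⟩
    simp only [smul_smul, inv_mul_cancel₀ hs.ne', one_smul]
  refine ⟨(fun x : E n => s⁻¹ • x) '' K, hK.image (continuous_const_smul s⁻¹), ?_, hfix φ hK2,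
    fun k => (dil s hs)⁻¹ * u k * dil s hs, fun k => hfix _ (hu1 k), fun k => ?_, ?_⟩
  · rintro _ ⟨x, hx, rfl⟩
    change Q (s⁻¹ • x) < 1
    rw [Q_smul, inv_pow, inv_mul_lt_iff₀ (by positivity), mul_one]
    have h1 := hρ x hx
    nlinarith
  · exact expand (hu2 k) hρ0 hρs hs1 hs fun x hx => hu1 k x fun hc =>
      absurd (hρ x hc) (not_le.2 hx)
  · have hU := Pool.Agent.Y309.HB.uc
    have h1 := (hU n).2.2.2.1 s hs
    exact ((hU n).1 _ _ _ _ ((hU n).1 _ _ _ _ ((hU n).2.1 _ _ h1) (uconv_of hU hK hK2 hu3)) h1).1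

/-- the endomorphism `φ ↦ φ^{(s)}` -/
noncomputable def dilHom (n : ℕ) (s : ℝ) : HamBar n →* HamBar n := by
  classical
  exact if h : 0 < s ∧ s ≤ 1 then
    { toFun := fun φ => ⟨dil s h.1 * (φ : E n ≃ₜ E n) * (dil s h.1)⁻¹,
        memBar.2 (dil_mem Pool.Agent.Y419.HB.dil_ham Pool.Agent.Y309.HB.uc h.1 h.2 (memBar.1 φ.2))⟩
      map_one' := Subtype.ext (by
        change dil s h.1 * 1 * (dil s h.1)⁻¹ = 1
        group)
      map_mul' := fun φ ψ => Subtype.ext (by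
        change dil s h.1 * ((φ : E n ≃ₜ E n) * (ψ : E n ≃ₜ E n)) * (dil s h.1)⁻¹ =
          dil s h.1 * (φ : E n ≃ₜ E n) * (dil s h.1)⁻¹ * (dil s h.1 * (ψ : E n ≃ₜ E n) *
            (dil s h.1)⁻¹)
        group) }
    else 1

theorem dilHom_coe {s : ℝ} (hs : 0 < s) (hs1 : s ≤ 1) (φ : HamBar n) :
    ((dilHom n s φ : HamBar n) : E n ≃ₜ E n) = dil s hs * (φ : E n ≃ₜ E n) * (dil s hs)⁻¹ := by
  unfold dilHom
  rw [dif_pos ⟨hs, hs1⟩]
  rfl

theorem dilHom_apply {s : ℝ} (hs : 0 < s) (hs1 : s ≤ 1) (φ : HamBar n) (x : E n) :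
    (dilHom n s φ : E n ≃ₜ E n) x = s • (φ : E n ≃ₜ E n) (s⁻¹ • x) := by
  rw [dilHom_coe hs hs1, mul_apply, mul_apply, dil_inv_apply, dil_apply]

theorem dilHom_isDilate {s : ℝ} (hs : 0 < s) (hs1 : s ≤ 1) (φ : HamBar n) :
    IsDilate s φ (dilHom n s φ) := fun x => by
  rw [dilHom_apply hs hs1, smul_smul, inv_mul_cancel₀ hs.ne', one_smul]

theorem isDilate_iff {s : ℝ} (hs : 0 < s) (hs1 : s ≤ 1) {φ φ' : HamBar n} :
    IsDilate s φ φ' ↔ φ' = dilHom n s φ := by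
  constructor
  · intro h
    apply Subtype.ext
    refine Homeomorph.ext fun x => ?_
    have h1 := h (s⁻¹ • x)
    rw [smul_smul, mul_inv_cancel₀ hs.ne', one_smul] at h1
    rw [h1, dilHom_apply hs hs1]
  · rintro rfl
    exact dilHom_isDilate hs hs1 φ

/-- the group of Hamiltonian homeomorphisms with its smallest normal subgroup -/
theorem dilsBar (hn : 0 < n) {S : Subgroup (HamBar n)} (hS : S.Normal) (hsim : IsSimpleGroup S)
    (hmin : ∀ N : Subgroup (HamBar n), N.Normal → N ≠ ⊥ → S ≤ N)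
    (hcl : ∀ (z : E n) (r : ℝ), 0 < r → r < 1 / 2 → Pool.Agent.R773.HN.nm z + r < 1 →
      S = Subgroup.normalClosure {y : HamBar n | ∃ f g : HamBar n,
        Pool.Agent.R773.HN.Supp (Pool.Agent.R773.HN.D z r) f ∧
        Pool.Agent.R773.HN.Supp (Pool.Agent.R773.HN.D z r) g ∧ y = ⁅f, g⁆})
    (hfr : Subgroup.normalClosure (Pool.Agent.R773.HN.SmS (HamBar n) (1 / 100)) = ⊤ →
      ∀ f g : HamBar n, ⁅f, g⁆ ∈ S) :
    Dils (HamBar n) (dilHom n) S := by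
  open Pool.Agent.R773.HN in
  -- dilates have small support
  have hsupp : ∀ (r : ℝ), 0 < r → r ≤ 1 → ∀ φ : HamBar n, Supp (D 0 r) (dilHom n r φ : E n ≃ₜ E n) := by
    intro r hr hr1 φ x hx
    obtain ⟨K, hK, hK1, hK2, -⟩ := memBar.1 φ.2
    rw [dilHom_apply hr hr1, hK2 _ ?_, smul_smul, mul_inv_cancel₀ hr.ne', one_smul]
    intro hc
    apply hx
    show nm (x - 0) ≤ r
    have h1 : nm (r⁻¹ • x) < 1 := nm_lt_one (hK1 hc)
    rw [nm_smul, abs_of_pos (inv_pos.2 hr), inv_mul_lt_iff₀ hr, mul_one] at h1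
    rw [sub_zero]
    exact h1.le
  have hcomm : ∀ r : ℝ, 0 < r → r < 1 / 2 → ∀ f g : HamBar n, ⁅dilHom n r f, dilHom n r g⁆ ∈ S := by
    intro r hr hr2 f g
    rw [hcl 0 r hr hr2 (by rw [nm_zero]; linarith)]
    exact Subgroup.subset_normalClosure ⟨_, _, hsupp r hr (by linarith) f,
      hsupp r hr (by linarith) g, rfl⟩
  have hinj : ∀ s : ℝ, 0 < s → s ≤ 1 → ∀ φ : HamBar n, dilHom n s φ = 1 → φ = 1 := by
    intro s hs hs1 φ h1
    have h2 := dilHom_coe hs hs1 φ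
    rw [h1] at h2
    apply Subtype.ext
    have h3 : (1 : E n ≃ₜ E n) = dil s hs * (φ : E n ≃ₜ E n) * (dil s hs)⁻¹ := h2
    have h4 : (φ : E n ≃ₜ E n) = (dil s hs)⁻¹ * (dil s hs * (φ : E n ≃ₜ E n) * (dil s hs)⁻¹) *
      dil s hs := by group
    rw [h4, ← h3]
    show (dil s hs)⁻¹ * 1 * dil s hs = 1
    group
  have hmul : ∀ s ∈ Ioo (0 : ℝ) 1, ∀ r ∈ Ioo (0 : ℝ) 1, ∀ φ : HamBar n,
      dilHom n (s * r) φ = dilHom n s (dilHom n r φ) := by
    intro s hs r hr φ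
    apply Subtype.ext
    refine Homeomorph.ext fun x => ?_
    rw [dilHom_apply (mul_pos hs.1 hr.1) (mem_Ioo_mul hs hr).2.le, dilHom_apply hs.1 hs.2.le,
      dilHom_apply hr.1 hr.2.le, smul_smul, smul_smul, mul_inv, mul_comm s⁻¹ r⁻¹]
  refine ⟨hS, hmul, fun φ => ?_, hmin, fun s hs => ?_, fun htop => hfr ?_, ?_⟩
  · obtain ⟨ρ, hρ0, hρ1, h⟩ := expandBar (memBar.1 φ.2)
    have hs : (ρ + 1) / 2 ∈ Ioo (0 : ℝ) 1 := ⟨by linarith, by linarith⟩
    refine ⟨(ρ + 1) / 2, hs, ⟨_, memBar.2 (h _ hs.1 (by linarith) hs.2)⟩, ?_⟩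
    apply Subtype.ext
    rw [dilHom_coe hs.1 hs.2.le]
    let d : E n ≃ₜ E n := dil ((ρ + 1) / 2) hs.1
    show d * (d⁻¹ * (φ : E n ≃ₜ E n) * d) * d⁻¹ = (φ : E n ≃ₜ E n)
    group
  · -- a nontrivial commutator
    have hSne : S ≠ ⊥ := by
      rintro rfl
      have := hsim.toNontrivial
      exact not_subsingleton _ (inferInstance : Subsingleton (⊥ : Subgroup (HamBar n)))
    have hex : ∃ f g : HamBar n, ⁅f, g⁆ ≠ 1 := by
      by_contra hcon
      push Not at hcon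
      apply hSne
      rw [hcl 0 (1 / 3) (by norm_num) (by norm_num) (by
        rw [Pool.Agent.R773.HN.nm_zero]; norm_num), eq_bot_iff]
      refine Subgroup.normalClosure_le_normal ?_
      rintro y ⟨f, g, -, -, rfl⟩
      rw [SetLike.mem_coe, Subgroup.mem_bot]
      exact hcon f g
    obtain ⟨f, g, hfg⟩ := hex
    have hx : (1 / 3 : ℝ) ∈ Ioo (0 : ℝ) 1 := by norm_num
    refine ⟨dilHom n (1 / 3) ⁅f, g⁆, fun h1 => hfg (hinj _ hx.1 hx.2.le _ h1), ?_⟩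
    rw [← hmul s hs _ hx, map_commutatorElement]
    exact hcomm _ (mul_pos hs.1 hx.1) (by nlinarith [hs.1, hs.2]) f g
  · rw [eq_top_iff, ← htop (1 / 100) (by norm_num)]
    refine Subgroup.normalClosure_mono ?_
    rintro _ ⟨φ, rfl⟩
    exact ⟨0, 1 / 100, by norm_num, le_rfl, by rw [Pool.Agent.R773.HN.nm_zero]; norm_num,
      hsupp _ (by norm_num) (by norm_num) φ⟩
  · intro A _ D c s hs hc
    have hr : (1 - s) / 4 ∈ Ioo (0 : ℝ) 1 := ⟨by linarith [hs.2], by linarith [hs.1]⟩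
    refine ⟨(1 - s) / 4, hr, fun φ => ?_⟩
    obtain ⟨Φ, hΦ⟩ := equivariant hn A D (fun φ => (c φ).toAdd)
      (fun φ ψ => by
        have h1 : c (ψ * φ * ψ⁻¹) = c φ := by
          rw [map_mul, map_mul, map_inv, mul_comm (c ψ), mul_inv_cancel_right]
        exact congrArg Multiplicative.toAdd h1)
      (fun φ ψ _ => by rw [map_mul, toAdd_mul]) s hs.1
      (fun φ φ' h => by
        rw [(isDilate_iff hs.1 hs.2.le).1 h]
        exact hc φ) (1 - Polynomial.X) (by simp) ((1 - s) / 4) hr.1 (by linarith [hs.2]) φ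
      (dilHom n ((1 - s) / 4) φ) (dilHom_isDilate hr.1 hr.2.le φ)
    refine ⟨Φ, hΦ.trans ?_⟩
    rw [map_sub, map_one, Polynomial.aeval_X]
    rfl

end Pool.Agent.D0H50.HL
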