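import Pool.Agent.R773.HN.Bd

/-!
# The symplectic form on `ℝ^{2n}` and Hamiltonian vector fields
-/

set_option autoImplicit false

open Set Filter Topology Function
open Pool.Agent.Y453.HB

namespace Pool.Agent.D0H50.HL

variable {n : ℕ}

/-- the symplectic form as a bilinear map -/
noncomputable def omL (n : ℕ) : E n →ₗ[ℝ] E n →ₗ[ℝ] ℝ :=
  LinearMap.mk₂ ℝ (fun a b : E n => ∑ i, (a.1 i * b.2 i - a.2 i * b.1 i))
    (fun a a' b => by
      rw [← Finset.sum_add_distrib]
      exact Finset.sum_congr rfl fun i _ => by simp only [Prod.fst_add, Prod.snd_add, Pi.add_apply]; ring)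
    (fun c a b => by
      rw [smul_eq_mul, Finset.mul_sum]
      exact Finset.sum_congr rfl fun i _ => by
        simp only [Prod.smul_fst, Prod.smul_snd, Pi.smul_apply, smul_eq_mul]; ring)
    (fun a b b' => by
      rw [← Finset.sum_add_distrib]
      exact Finset.sum_congr rfl fun i _ => by simp only [Prod.fst_add, Prod.snd_add, Pi.add_apply]; ring)
    (fun c a b => by
      rw [smul_eq_mul, Finset.mul_sum]
      exact Finset.sum_congr rfl fun i _ => by
        simp only [Prod.smul_fst, Prod.smul_snd, Pi.smul_apply, smul_eq_mul]; ring)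

/-- the symplectic form -/
noncomputable def om (n : ℕ) : E n →L[ℝ] E n →L[ℝ] ℝ := (omL n).toContinuousBilinearMap

theorem om_apply (a b : E n) : om n a b = ∑ i, (a.1 i * b.2 i - a.2 i * b.1 i) := rfl

theorem om_swap (a b : E n) : om n a b = - om n b a := by
  rw [om_apply, om_apply, ← Finset.sum_neg_distrib]
  exact Finset.sum_congr rfl fun i _ => by ring

theorem om_nondeg {a b : E n} (h : ∀ w, om n a w = om n b w) : a = b := by
  apply Prod.ext
  · funext i
    have h1 := h (0, Pi.single i 1)
    simpa [om_apply, Pi.single_apply] using h1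
  · funext i
    have h1 := h (Pi.single i 1, 0)
    simpa [om_apply, Pi.single_apply] using h1

/-- expansion of a linear form -/
theorem lin_expand (L : E n →L[ℝ] ℝ) (w : E n) :
    L w = ∑ i, (w.1 i * L (Pi.single i 1, 0) + w.2 i * L (0, Pi.single i 1)) := by
  have h1 : w = ∑ i, (w.1 i • ((Pi.single i 1, 0) : E n) + w.2 i • ((0, Pi.single i 1) : E n)) := by
    apply Prod.ext
    · funext j
      simp [Finset.sum_apply, Prod.fst_sum, Pi.single_apply]
    · funext j
      simp [Finset.sum_apply, Prod.snd_sum, Pi.single_apply]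
  conv_lhs => rw [h1]
  rw [map_sum]
  refine Finset.sum_congr rfl fun i _ => ?_
  rw [map_add, map_smul, map_smul, smul_eq_mul, smul_eq_mul]

/-- the Hamiltonian vector field is dual to the differential -/
theorem om_XH (h : E n → ℝ) (p w : E n) : om n (XH h p) w = fderiv ℝ h p w := by
  rw [om_apply, lin_expand (fderiv ℝ h p) w]
  refine Finset.sum_congr rfl fun i _ => ?_
  simp only [XH]
  ring

theorem XH_eq {h : E n → ℝ} {p v : E n} (hv : ∀ w, om n v w = fderiv ℝ h p w) : XH h p = v :=
  om_nondeg fun w => by rw [om_XH, hv]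

end Pool.Agent.D0H50.HL
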