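import Mathlib

/-!
# Chains of order type `ℝ`
-/

set_option autoImplicit false

open Set

namespace Pool.Agent.D0H50.HL

/-- an increasing map of `ℝ` into an interval `(a, 1)` -/
theorem exists_emb {a : ℝ} (ha : a < 1) : ∃ e : ℝ → ℝ, StrictMono e ∧ ∀ t, e t ∈ Ioo a 1 := by
  refine ⟨fun t => a + (1 - a) * ((Real.arctan t + Real.pi / 2) / Real.pi), fun s t h => ?_,
    fun t => ⟨?_, ?_⟩⟩
  · have h1 := Real.arctan_strictMono h
    have h2 : (Real.arctan s + Real.pi / 2) / Real.pi < (Real.arctan t + Real.pi / 2) / Real.pi :=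
      div_lt_div_of_pos_right (by linarith) Real.pi_pos
    have h3 : 0 < 1 - a := by linarith
    simp only
    nlinarith
  · have h1 := Real.neg_pi_div_two_lt_arctan t
    have h2 : 0 < (Real.arctan t + Real.pi / 2) / Real.pi := div_pos (by linarith) Real.pi_pos
    have h3 : 0 < 1 - a := by linarith
    simp only
    nlinarith
  · have h1 := Real.arctan_lt_pi_div_two t
    have h2 : (Real.arctan t + Real.pi / 2) / Real.pi < 1 := by
      rw [div_lt_one Real.pi_pos]
      linarith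
    have h3 : 0 < 1 - a := by linarith
    simp only
    nlinarith

/-- the embedding can be chosen cofinal and, for `a = 0`, coinitial -/
theorem exists_emb' {a : ℝ} (ha : a < 1) : ∃ e : ℝ → ℝ, StrictMono e ∧ (∀ t, e t ∈ Ioo a 1) ∧
    (∀ y < 1, ∃ t, y < e t) ∧ ∀ y > a, ∃ t, e t < y := by
  have hpi := Real.pi_pos
  have h3 : 0 < 1 - a := by linarith
  refine ⟨fun t => a + (1 - a) * ((Real.arctan t + Real.pi / 2) / Real.pi), fun s t h => ?_,
    fun t => ⟨?_, ?_⟩, fun y hy => ?_, fun y hy => ?_⟩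
  · have h1 := Real.arctan_strictMono h
    have h2 : (Real.arctan s + Real.pi / 2) / Real.pi < (Real.arctan t + Real.pi / 2) / Real.pi :=
      div_lt_div_of_pos_right (by linarith) Real.pi_pos
    simp only
    nlinarith
  · have h1 := Real.neg_pi_div_two_lt_arctan t
    have h2 : 0 < (Real.arctan t + Real.pi / 2) / Real.pi := div_pos (by linarith) Real.pi_pos
    simp only
    nlinarith
  · have h1 := Real.arctan_lt_pi_div_two t
    have h2 : (Real.arctan t + Real.pi / 2) / Real.pi < 1 := by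
      rw [div_lt_one Real.pi_pos]
      linarith
    simp only
    nlinarith
  · have h5 : Real.pi / 2 - Real.pi * (1 - y) / (1 - a) < Real.pi / 2 := by
      have : 0 < Real.pi * (1 - y) / (1 - a) := by
        apply div_pos (mul_pos hpi (by linarith)) h3
      linarith
    have h6 := (Real.tendsto_arctan_atTop.mono_right nhdsWithin_le_nhds).eventually (lt_mem_nhds h5)
    obtain ⟨t, ht⟩ := h6.exists
    refine ⟨t, ?_⟩
    simp only
    have h7 : Real.pi * (1 - y) / (1 - a) * (1 - a) = Real.pi * (1 - y) :=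
      div_mul_cancel₀ _ h3.ne'
    have h8 : (Real.arctan t + Real.pi / 2) / Real.pi * Real.pi = Real.arctan t + Real.pi / 2 :=
      div_mul_cancel₀ _ hpi.ne'
    have h9 : (1 - a) * (Real.pi - Real.pi * (1 - y) / (1 - a)) <
        (1 - a) * (Real.arctan t + Real.pi / 2) := mul_lt_mul_of_pos_left (by linarith) h3
    have h10 : Real.pi * y < Real.pi *
        (a + (1 - a) * ((Real.arctan t + Real.pi / 2) / Real.pi)) := by
      calc Real.pi * y = Real.pi * a + (1 - a) * (Real.pi - Real.pi * (1 - y) / (1 - a)) := by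
            linear_combination h7
        _ < Real.pi * a + (1 - a) * (Real.arctan t + Real.pi / 2) := by linarith
        _ = _ := by linear_combination (-(1 - a)) * h8
    exact lt_of_mul_lt_mul_left h10 hpi.le
  · have h5 : -(Real.pi / 2) < -(Real.pi / 2) + Real.pi * (y - a) / (1 - a) := by
      have : 0 < Real.pi * (y - a) / (1 - a) := by
        apply div_pos (mul_pos hpi (by linarith)) h3
      linarith
    have h6 := (Real.tendsto_arctan_atBot.mono_right nhdsWithin_le_nhds).eventually (gt_mem_nhds h5)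
    obtain ⟨t, ht⟩ := h6.exists
    refine ⟨t, ?_⟩
    simp only
    have h7 : Real.pi * (y - a) / (1 - a) * (1 - a) = Real.pi * (y - a) :=
      div_mul_cancel₀ _ h3.ne'
    have h8 : (Real.arctan t + Real.pi / 2) / Real.pi * Real.pi = Real.arctan t + Real.pi / 2 :=
      div_mul_cancel₀ _ hpi.ne'
    have h9 : (1 - a) * (Real.arctan t + Real.pi / 2) <
        (1 - a) * (Real.pi * (y - a) / (1 - a)) := mul_lt_mul_of_pos_left (by linarith) h3
    have h10 : Real.pi * (a + (1 - a) * ((Real.arctan t + Real.pi / 2) / Real.pi)) <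
        Real.pi * y := by
      calc Real.pi * (a + (1 - a) * ((Real.arctan t + Real.pi / 2) / Real.pi)) =
            Real.pi * a + (1 - a) * (Real.arctan t + Real.pi / 2) := by
            linear_combination (1 - a) * h8
        _ < Real.pi * a + (1 - a) * (Real.pi * (y - a) / (1 - a)) := by linarith
        _ = Real.pi * y := by linear_combination h7
    exact lt_of_mul_lt_mul_left h10 hpi.le

/-- if two values of a monotone family with the scaling property agree, it is constant below -/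
theorem const_below {α : Type} [PartialOrder α] {g : ℝ → α} (hg : MonotoneOn g (Ioo 0 1))
    (hs : ∀ s r x : ℝ, 0 < s → s < r → r < 1 → g s = g r → 0 < x → x < 1 →
      g (x * s) = g (x * r)) {s r : ℝ} (hs0 : 0 < s) (hsr : s < r) (hr1 : r < 1)
    (heq : g s = g r) {y₁ y₂ : ℝ} (h1 : 0 < y₁) (h2 : y₁ < y₂) (h3 : y₂ ≤ r) : g y₁ = g y₂ := by
  have hr0 : 0 < r := hs0.trans hsr
  have hq0 : 0 < s / r := div_pos hs0 hr0
  have hq1 : s / r < 1 := (div_lt_one hr0).2 hsr
  have hstep : ∀ y : ℝ, 0 < y → y ≤ r → g (s / r * y) = g y := by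
    intro y hy hyr
    rcases eq_or_lt_of_le hyr with h4 | h4
    · rw [h4, div_mul_cancel₀ _ hr0.ne']
      exact heq
    · have h5 := hs s r (y / r) hs0 hsr hr1 heq (div_pos hy hr0) ((div_lt_one hr0).2 h4)
      rw [div_mul_cancel₀ _ hr0.ne'] at h5
      rw [← h5]
      congr 1
      ring
  have hpow : ∀ k : ℕ, g ((s / r) ^ k * y₂) = g y₂ := by
    intro k
    induction k with
    | zero => simp
    | succ k ih =>
      rw [pow_succ', mul_assoc, hstep _ (by have := h1.trans h2; positivity) ?_, ih]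
      have h6 : (s / r) ^ k ≤ 1 := pow_le_one₀ hq0.le hq1.le
      have h7 := h1.trans h2
      nlinarith
  obtain ⟨k, hk⟩ := exists_pow_lt_of_lt_one (div_pos h1 (h1.trans h2)) hq1
  have h8 : (s / r) ^ k * y₂ ≤ y₁ := by
    rw [lt_div_iff₀ (h1.trans h2)] at hk
    exact hk.le
  have hy2 : y₂ ∈ Ioo (0 : ℝ) 1 := ⟨h1.trans h2, lt_of_le_of_lt h3 hr1⟩
  have hy1 : y₁ ∈ Ioo (0 : ℝ) 1 := ⟨h1, h2.trans hy2.2⟩
  have h9 : (s / r) ^ k * y₂ ∈ Ioo (0 : ℝ) 1 :=
    ⟨mul_pos (pow_pos hq0 k) hy2.1, lt_of_le_of_lt h8 hy1.2⟩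
  refine le_antisymm (hg hy1 hy2 h2.le) ?_
  rw [← hpow k]
  exact hg h9 hy1 h8

/-- a monotone family with the scaling property is strictly monotone on an interval or constant -/
theorem chain_or_const {α : Type} [PartialOrder α] (g : ℝ → α) (hg : MonotoneOn g (Ioo 0 1))
    (hs : ∀ s r x : ℝ, 0 < s → s < r → r < 1 → g s = g r → 0 < x → x < 1 →
      g (x * s) = g (x * r)) :
    (∃ e : ℝ → ℝ, StrictMono (fun t => g (e t)) ∧ (∀ t, e t ∈ Ioo (0 : ℝ) 1) ∧
      ∀ y < 1, ∃ t, y < e t) ∨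
      ∀ s ∈ Ioo (0 : ℝ) 1, ∀ r ∈ Ioo (0 : ℝ) 1, g s = g r := by
  by_cases h : ∃ a : ℝ, 0 ≤ a ∧ a < 1 ∧ StrictMonoOn g (Ioo a 1)
  · obtain ⟨a, ha0, ha1, ha⟩ := h
    obtain ⟨e, he, hm, hc, -⟩ := exists_emb' ha1
    exact Or.inl ⟨e, fun s t hst => ha (hm s) (hm t) (he hst),
      fun t => ⟨lt_of_le_of_lt ha0 (hm t).1, (hm t).2⟩, hc⟩
  · right
    push Not at h
    -- constant on `(0, r]`
    have key : ∀ a : ℝ, 0 < a → a < 1 → ∃ r, a < r ∧ r < 1 ∧
        ∀ y₁ y₂ : ℝ, 0 < y₁ → y₁ < y₂ → y₂ ≤ r → g y₁ = g y₂ := by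
      intro a ha0 ha1
      have h1 := h a ha0.le ha1
      unfold StrictMonoOn at h1
      push Not at h1
      obtain ⟨s, hs1, r, hr1, hsr, hn⟩ := h1
      have hs0 : 0 < s := ha0.trans hs1.1
      have hr0 : 0 < r := ha0.trans hr1.1
      have hle : g s ≤ g r := hg ⟨hs0, hs1.2⟩ ⟨hr0, hr1.2⟩ hsr.le
      have heq : g s = g r := by
        by_contra hne
        exact hn (lt_of_le_of_ne hle hne)
      exact ⟨r, hr1.1, hr1.2, fun y₁ y₂ h1 h2 h3 =>
        const_below hg hs hs0 hsr hr1.2 heq h1 h2 h3⟩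
    intro s hs' r hr'
    rcases lt_trichotomy s r with h1 | h1 | h1
    · obtain ⟨c, hc, -, hcc⟩ := key r hr'.1 hr'.2
      exact hcc s r hs'.1 h1 hc.le
    · rw [h1]
    · obtain ⟨c, hc, -, hcc⟩ := key s hs'.1 hs'.2
      exact (hcc r s hr'.1 h1 hc.le).symm

end Pool.Agent.D0H50.HL
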