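import Pool.Agent.D0H50.HL.Flw

/-!
# The variational equation, invariance of the symplectic form, differential of the action
-/

set_option autoImplicit false

open Set Filter Topology Function
open Pool.Agent.Y453.HB
open Pool.Agent.R773.HN (Bd.G Bd.fderiv_slice)

namespace Pool.Agent.D0H50.HL

variable {n : ℕ}

/-- mixed partial derivatives -/
theorem mixed {X Y : Type} [NormedAddCommGroup X] [NormedSpace ℝ X] [NormedAddCommGroup Y]
    [NormedSpace ℝ Y] {F f : ℝ × X → Y}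
    (hF : ContDiff ℝ ((⊤ : ℕ∞) : WithTop ℕ∞) F)
    (hf : ∀ p : ℝ × X, HasDerivAt (fun t => F (t, p.2)) (f p) p.1) (z w : X) (t : ℝ) :
    HasDerivAt (fun t => fderiv ℝ F (t, z) ((0 : ℝ), w)) (fderiv ℝ f (t, z) ((0 : ℝ), w)) t := by
  have hF1 : ContDiff ℝ ((⊤ : ℕ∞) : WithTop ℕ∞) (fun p => fderiv ℝ F p) :=
    hF.fderiv_right (m := ((⊤ : ℕ∞) : WithTop ℕ∞)) (by simp)
  have hd : ∀ p, HasFDerivAt F (fderiv ℝ F p) p := fun p =>
    (hF.differentiable (by simp) p).hasFDerivAt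
  have hd2 : ∀ p, HasFDerivAt (fderiv ℝ F) (fderiv ℝ (fderiv ℝ F) p) p := fun p =>
    (hF1.differentiable (by simp) p).hasFDerivAt
  have hcur : ∀ (p : ℝ × X), HasDerivAt (fun t : ℝ => ((t, p.2) : ℝ × X)) ((1 : ℝ), (0 : X)) p.1 :=
    fun p => (hasDerivAt_id p.1).prodMk (hasDerivAt_const p.1 p.2)
  have hfe : f = fun p => fderiv ℝ F p ((1 : ℝ), (0 : X)) := by
    funext p
    exact (hf p).unique ((hd p).comp_hasDerivAt p.1 (hcur p))
  have h1 : fderiv ℝ f (t, z) ((0 : ℝ), w) =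
      fderiv ℝ (fderiv ℝ F) (t, z) ((0 : ℝ), w) ((1 : ℝ), (0 : X)) := by
    have h2 : HasFDerivAt f ((fderiv ℝ (fderiv ℝ F) (t, z)).flip ((1 : ℝ), (0 : X))) (t, z) := by
      rw [hfe]
      have h3 := (hd2 (t, z)).clm_apply (hasFDerivAt_const ((1 : ℝ), (0 : X)) (t, z))
      refine h3.congr_fderiv ?_
      exact ContinuousLinearMap.ext fun v => by simp
    rw [h2.fderiv]
    rfl
  have hsym : IsSymmSndFDerivAt ℝ F (t, z) :=
    ((contDiff_infty.mp hF 2).contDiffAt (x := (t, z))).isSymmSndFDerivAt (by simp)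
  rw [h1, hsym.eq]
  exact ((hd2 (t, z)).comp_hasDerivAt t (hcur (t, z))).clm_apply (hasDerivAt_const t ((0 : ℝ), w))
    |>.congr_deriv (by simp)

/-- symmetry of the Hessian -/
theorem hess {H : ℝ → E n → ℝ} {K : Set (ℝ × E n)} (h : Nice H K) (p : ℝ × E n) (a c : E n) :
    om n (fderiv ℝ (Bd.G H) p ((0 : ℝ), a)) c = om n (fderiv ℝ (Bd.G H) p ((0 : ℝ), c)) a := by
  have hF := h.smooth
  have hF1 : ContDiff ℝ ((⊤ : ℕ∞) : WithTop ℕ∞) (fun p => fderiv ℝ (Function.uncurry H) p) :=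
    hF.fderiv_right (m := ((⊤ : ℕ∞) : WithTop ℕ∞)) (by simp)
  have hd2 : HasFDerivAt (fderiv ℝ (Function.uncurry H))
      (fderiv ℝ (fderiv ℝ (Function.uncurry H)) p) p :=
    (hF1.differentiable (by simp) p).hasFDerivAt
  have hG : HasFDerivAt (Bd.G H) (fderiv ℝ (Bd.G H) p) p :=
    (h.G_contDiff.differentiable (by simp) p).hasFDerivAt
  have key : ∀ a c : E n, om n (fderiv ℝ (Bd.G H) p ((0 : ℝ), a)) c =
      fderiv ℝ (fderiv ℝ (Function.uncurry H)) p ((0 : ℝ), a) ((0 : ℝ), c) := by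
    intro a c
    have e : (fun q => om n (Bd.G H q) c) =
        fun q => fderiv ℝ (Function.uncurry H) q ((0 : ℝ), c) := by
      funext q
      unfold Bd.G
      rw [om_XH, Bd.fderiv_slice hF]
    have h1 : HasFDerivAt (fun q => om n (Bd.G H q) c)
        (((om n).flip c).comp (fderiv ℝ (Bd.G H) p)) p :=
      ((om n).flip c).hasFDerivAt.comp p hG
    have h2 : HasFDerivAt (fun q => fderiv ℝ (Function.uncurry H) q ((0 : ℝ), c))
        ((fderiv ℝ (fderiv ℝ (Function.uncurry H)) p).flip ((0 : ℝ), c)) p := by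
      have h3 := hd2.clm_apply (hasFDerivAt_const ((0 : ℝ), c) p)
      refine h3.congr_fderiv ?_
      exact ContinuousLinearMap.ext fun v => by simp
    rw [e] at h1
    have h4 := congrArg (fun T => T ((0 : ℝ), a)) (h1.unique h2)
    exact h4
  have hsym : IsSymmSndFDerivAt ℝ (Function.uncurry H) p :=
    ((contDiff_infty.mp hF 2).contDiffAt (x := p)).isSymmSndFDerivAt (by simp)
  rw [key, key, hsym.eq]

/-- a smooth family of solutions with the action -/
structure Fam (H : ℝ → E n → ℝ) (t₀ : ℝ) (P : ℝ × E n → E n) (A : ℝ × E n → ℝ) : Prop where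
  P_smooth : ContDiff ℝ ((⊤ : ℕ∞) : WithTop ℕ∞) P
  A_smooth : ContDiff ℝ ((⊤ : ℕ∞) : WithTop ℕ∞) A
  P_zero : ∀ z, P (t₀, z) = z
  A_zero : ∀ z, A (t₀, z) = 0
  P_deriv : ∀ p : ℝ × E n, HasDerivAt (fun t => P (t, p.2)) (Bd.G H (p.1, P p)) p.1
  A_deriv : ∀ p : ℝ × E n, HasDerivAt (fun t => A (t, p.2)) (Lg H (p.1, P p)) p.1

theorem Fam.init {H : ℝ → E n → ℝ} {t₀ : ℝ} {P : ℝ × E n → E n} {A : ℝ × E n → ℝ}
    (h : Fam H t₀ P A) (z w : E n) :
    fderiv ℝ P (t₀, z) ((0 : ℝ), w) = w ∧ fderiv ℝ A (t₀, z) ((0 : ℝ), w) = 0 := by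
  have hin : HasFDerivAt (fun y : E n => (t₀, y)) (ContinuousLinearMap.inr ℝ ℝ (E n)) z :=
    hasFDerivAt_prodMk_right t₀ z
  constructor
  · have h1 : HasFDerivAt (fun y : E n => P (t₀, y))
        ((fderiv ℝ P (t₀, z)).comp (ContinuousLinearMap.inr ℝ ℝ (E n))) z :=
      HasFDerivAt.comp z (f := fun y : E n => (t₀, y))
        (h.P_smooth.differentiable (by simp) (t₀, z)).hasFDerivAt hin
    have h2 : (fun y : E n => P (t₀, y)) = id := funext fun y => h.P_zero y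
    rw [h2] at h1
    exact congrArg (fun T => T w) (h1.unique (hasFDerivAt_id z))
  · have h1 : HasFDerivAt (fun y : E n => A (t₀, y))
        ((fderiv ℝ A (t₀, z)).comp (ContinuousLinearMap.inr ℝ ℝ (E n))) z :=
      HasFDerivAt.comp z (f := fun y : E n => (t₀, y))
        (h.A_smooth.differentiable (by simp) (t₀, z)).hasFDerivAt hin
    have h2 : (fun y : E n => A (t₀, y)) = fun _ => (0 : ℝ) := funext fun y => h.A_zero y
    rw [h2] at h1
    exact congrArg (fun T => T w) (h1.unique (hasFDerivAt_const (0 : ℝ) z))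

theorem Fam.varP {H : ℝ → E n → ℝ} {K : Set (ℝ × E n)} (hH : Nice H K) {t₀ : ℝ}
    {P : ℝ × E n → E n} {A : ℝ × E n → ℝ} (h : Fam H t₀ P A) (z w : E n) (t : ℝ) :
    HasDerivAt (fun t => fderiv ℝ P (t, z) ((0 : ℝ), w))
      (fderiv ℝ (Bd.G H) (t, P (t, z)) ((0 : ℝ), fderiv ℝ P (t, z) ((0 : ℝ), w))) t := by
  have h1 := mixed h.P_smooth h.P_deriv z w t
  refine h1.congr_deriv ?_
  have h2 : HasFDerivAt (fun p : ℝ × E n => ((p.1, P p) : ℝ × E n))
      ((ContinuousLinearMap.fst ℝ ℝ (E n)).prod (fderiv ℝ P (t, z))) (t, z) :=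
    hasFDerivAt_fst.prodMk (h.P_smooth.differentiable (by simp) (t, z)).hasFDerivAt
  have h3 : HasFDerivAt (Bd.G H) (fderiv ℝ (Bd.G H) (t, P (t, z))) (t, P (t, z)) :=
    (hH.G_contDiff.differentiable (by simp) _).hasFDerivAt
  have h4 := HasFDerivAt.comp (t, z) (f := fun p : ℝ × E n => ((p.1, P p) : ℝ × E n)) h3 h2
  have h5 : fderiv ℝ (fun p : ℝ × E n => Bd.G H (p.1, P p)) (t, z) = _ := h4.fderiv
  rw [h5]
  rfl

theorem Fam.varA {H : ℝ → E n → ℝ} {K : Set (ℝ × E n)} (hH : Nice H K) {t₀ : ℝ}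
    {P : ℝ × E n → E n} {A : ℝ × E n → ℝ} (h : Fam H t₀ P A) (z w : E n) (t : ℝ) :
    HasDerivAt (fun t => fderiv ℝ A (t, z) ((0 : ℝ), w))
      (fderiv ℝ (Lg H) (t, P (t, z)) ((0 : ℝ), fderiv ℝ P (t, z) ((0 : ℝ), w))) t := by
  have h1 := mixed h.A_smooth h.A_deriv z w t
  refine h1.congr_deriv ?_
  have h2 : HasFDerivAt (fun p : ℝ × E n => ((p.1, P p) : ℝ × E n))
      ((ContinuousLinearMap.fst ℝ ℝ (E n)).prod (fderiv ℝ P (t, z))) (t, z) :=
    hasFDerivAt_fst.prodMk (h.P_smooth.differentiable (by simp) (t, z)).hasFDerivAt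
  have h3 : HasFDerivAt (Lg H) (fderiv ℝ (Lg H) (t, P (t, z))) (t, P (t, z)) :=
    (hH.L_contDiff.differentiable (by simp) _).hasFDerivAt
  have h4 := HasFDerivAt.comp (t, z) (f := fun p : ℝ × E n => ((p.1, P p) : ℝ × E n)) h3 h2
  have h5 : fderiv ℝ (fun p : ℝ × E n => Lg H (p.1, P p)) (t, z) = _ := h4.fderiv
  rw [h5]
  rfl

/-- the derivative of the Lagrangian -/
theorem fderiv_Lg {H : ℝ → E n → ℝ} {K : Set (ℝ × E n)} (hH : Nice H K) (p : ℝ × E n) (a : E n) :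
    fderiv ℝ (Lg H) p ((0 : ℝ), a) =
      om n (Bd.G H p) a + om n p.2 (fderiv ℝ (Bd.G H) p ((0 : ℝ), a)) := by
  have e : Lg H = fun q : ℝ × E n => 2 * Function.uncurry H q + om n q.2 (Bd.G H q) := by
    funext q
    unfold Lg Bd.G
    rw [om_swap q.2, om_XH]
    rfl
  have hG : HasFDerivAt (Bd.G H) (fderiv ℝ (Bd.G H) p) p :=
    (hH.G_contDiff.differentiable (by simp) p).hasFDerivAt
  have hHd : HasFDerivAt (Function.uncurry H) (fderiv ℝ (Function.uncurry H) p) p :=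
    (hH.smooth.differentiable (by simp) p).hasFDerivAt
  have h1 : HasFDerivAt (fun q : ℝ × E n => om n q.2)
      ((om n).comp (ContinuousLinearMap.snd ℝ ℝ (E n))) p :=
    (om n).hasFDerivAt.comp p hasFDerivAt_snd
  have h2 := h1.clm_apply hG
  have h3 := (hHd.const_mul (2 : ℝ)).add h2
  have e' : (fun q : ℝ × E n => 2 * Function.uncurry H q) +
      (fun q : ℝ × E n => om n q.2 (Bd.G H q)) = Lg H := by
    rw [e]
    rfl
  rw [e'] at h3
  rw [h3.fderiv]
  have h5 : fderiv ℝ (Function.uncurry H) p ((0 : ℝ), a) = om n (Bd.G H p) a := by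
    unfold Bd.G
    rw [om_XH, Bd.fderiv_slice hH.smooth]
  simp only [_root_.add_apply, _root_.smul_apply, h5,
    ContinuousLinearMap.comp_apply, ContinuousLinearMap.flip_apply, smul_eq_mul]
  have h6 : (ContinuousLinearMap.snd ℝ ℝ (E n)) ((0 : ℝ), a) = a := rfl
  rw [h6, om_swap a (Bd.G H p)]
  ring

/-- invariance of the symplectic form -/
theorem Fam.sympl {H : ℝ → E n → ℝ} {K : Set (ℝ × E n)} (hH : Nice H K) {t₀ : ℝ}
    {P : ℝ × E n → E n} {A : ℝ × E n → ℝ} (h : Fam H t₀ P A) (z w w' : E n) (t : ℝ) :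
    om n (fderiv ℝ P (t, z) ((0 : ℝ), w)) (fderiv ℝ P (t, z) ((0 : ℝ), w')) = om n w w' := by
  have hd : ∀ t, HasDerivAt (fun t => om n (fderiv ℝ P (t, z) ((0 : ℝ), w))
      (fderiv ℝ P (t, z) ((0 : ℝ), w'))) 0 t := by
    intro t
    have h1 := ((om n).hasFDerivAt.comp_hasDerivAt t (h.varP hH z w t)).clm_apply
      (h.varP hH z w' t)
    refine h1.congr_deriv ?_
    simp only [Function.comp_apply]
    rw [hess hH, om_swap (fderiv ℝ P (t, z) ((0 : ℝ), w))]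
    ring
  have h4 := is_const_of_deriv_eq_zero (fun t => (hd t).differentiableAt)
    (fun t => (hd t).deriv) t t₀
  rw [h4, (h.init z w).1, (h.init z w').1]

/-- the differential of the action -/
theorem Fam.action {H : ℝ → E n → ℝ} {K : Set (ℝ × E n)} (hH : Nice H K) {t₀ : ℝ}
    {P : ℝ × E n → E n} {A : ℝ × E n → ℝ} (h : Fam H t₀ P A) (z w : E n) (t : ℝ) :
    fderiv ℝ A (t, z) ((0 : ℝ), w) =
      om n (P (t, z)) (fderiv ℝ P (t, z) ((0 : ℝ), w)) - om n z w := by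
  have hd : ∀ t, HasDerivAt (fun t => fderiv ℝ A (t, z) ((0 : ℝ), w) -
      om n (P (t, z)) (fderiv ℝ P (t, z) ((0 : ℝ), w))) 0 t := by
    intro t
    have h1 := ((om n).hasFDerivAt.comp_hasDerivAt t (h.P_deriv (t, z))).clm_apply
      (h.varP hH z w t)
    refine ((h.varA hH z w t).sub h1).congr_deriv ?_
    simp only [Function.comp_apply]
    rw [fderiv_Lg hH]
    ring
  have h4 := is_const_of_deriv_eq_zero (fun t => (hd t).differentiableAt)
    (fun t => (hd t).deriv) t t₀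
  rw [(h.init z w).1, (h.init z w).2, h.P_zero] at h4
  linarith

end Pool.Agent.D0H50.HL
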